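import Pool.Agent.H67.Nu.Defs

/-!
A column which makes every state move as prescribed (MP_1e71f9_co).
-/

set_option autoImplicit false

namespace Pool.Agent.H67.Nu

open Finset

theorem sg_mul_self (b : Bool) : sg b * sg b = 1 := by
  cases b <;> simp [sg]

theorem abs_sg (b : Bool) : |sg b| = 1 := by
  cases b <;> simp [sg]

theorem sg_beq (a b : Bool) : sg (a == b) = sg a * sg b := by
  cases a <;> cases b <;> simp [sg]

theorem sg_not' (b : Bool) : sg (!b) = - sg b := by
  cases b <;> simp [sg]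

/-- Quantitative form of a state. -/
theorem exists_kappa (x : ℕ → ℕ → ℝ) (n a : ℕ) (s : ℕ → Bool) (ε : Bool)
    (h : St x n s a ε) :
    ∃ κ : ℝ, 0 < κ ∧ ∀ c : ℕ → ℝ,
      (∀ j < n, 0 ≤ sg (s j) * ∑ i ∈ range (a + 1), c i * x j i) →
      ∀ i < a + 1, κ * |c i| ≤ max |c a| (sg ε * c (a - 1)) := by
  classical
  -- the extension of a vector by zero
  let ext : (Fin (a + 1) → ℝ) → ℕ → ℝ := fun c i => if hi : i < a + 1 then c ⟨i, hi⟩ else 0
  have hext : ∀ i, Continuous fun c : Fin (a + 1) → ℝ => ext c i := by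
    intro i
    by_cases hi : i < a + 1
    · have : (fun c : Fin (a + 1) → ℝ => ext c i) = fun c => c ⟨i, hi⟩ := by
        funext c; exact dif_pos hi
      rw [this]; exact continuous_apply _
    · have : (fun c : Fin (a + 1) → ℝ => ext c i) = fun _ => (0 : ℝ) := by
        funext c; exact dif_neg hi
      rw [this]; exact continuous_const
  let K : Set (Fin (a + 1) → ℝ) :=
    Metric.sphere 0 1 ∩ {c | ∀ j < n, 0 ≤ sg (s j) * ∑ i ∈ range (a + 1), ext c i * x j i}
  have hKc : IsCompact K := by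
    refine (isCompact_sphere _ _).inter_right ?_
    have : {c : Fin (a + 1) → ℝ | ∀ j < n, 0 ≤ sg (s j) * ∑ i ∈ range (a + 1), ext c i * x j i}
        = ⋂ j : ℕ, ⋂ _ : j < n, {c | 0 ≤ sg (s j) * ∑ i ∈ range (a + 1), ext c i * x j i} := by
      ext c; simp
    rw [this]
    refine isClosed_iInter fun j => isClosed_iInter fun _ => ?_
    refine isClosed_le continuous_const (continuous_const.mul ?_)
    exact continuous_finsetSum _ fun i _ => (hext i).mul continuous_const
  let g : (Fin (a + 1) → ℝ) → ℝ := fun c => max |ext c a| (sg ε * ext c (a - 1))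
  have hg : Continuous g := (hext a).abs.max (continuous_const.mul (hext (a - 1)))
  have hpos : ∀ c ∈ K, 0 < g c := by
    intro c hc
    by_cases hca : ext c a = 0
    · have hne : ∃ i < a, ext c i ≠ 0 := by
        by_contra hcon
        push Not at hcon
        have hc0 : c = 0 := by
          funext i
          have hi := i.2
          rcases Nat.lt_succ_iff_lt_or_eq.1 hi with h1 | h1
          · have h2 := hcon i h1
            have h3 : ext c (i : ℕ) = c i := dif_pos hi
            rw [h3] at h2; exact h2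
          · have h2 : ext c i = 0 := by rw [h1]; exact hca
            have h3 : ext c (i : ℕ) = c i := dif_pos hi
            rw [h3] at h2; exact h2
        have h1 : ‖c‖ = 1 := by simpa using hc.1
        rw [hc0] at h1
        simp at h1
      have := h (ext c) hne (fun j hj => by
        have h2 := hc.2 j hj
        rw [sum_range_succ, hca, zero_mul, add_zero] at h2
        exact h2)
      exact lt_of_lt_of_le this (le_max_right _ _)
    · exact lt_of_lt_of_le (abs_pos.2 hca) (le_max_left _ _)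
  obtain ⟨κ, hκ, hκK⟩ : ∃ κ : ℝ, 0 < κ ∧ ∀ c ∈ K, κ ≤ g c := by
    rcases K.eq_empty_or_nonempty with hK | hK
    · exact ⟨1, one_pos, by simp [hK]⟩
    · obtain ⟨c0, hc0, hmin⟩ := hKc.exists_isMinOn hK hg.continuousOn
      exact ⟨g c0, hpos c0 hc0, fun c hc => hmin hc⟩
  refine ⟨κ, hκ, fun c hc i hi => ?_⟩
  let d : Fin (a + 1) → ℝ := fun k => c k
  have hed : ∀ k < a + 1, ext d k = c k := by
    intro k hk; exact dif_pos hk
  by_cases hd : d = 0
  · have hci : c i = 0 := by
      have := congrFun hd ⟨i, hi⟩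
      simpa [d] using this
    rw [hci]
    simp only [abs_zero, mul_zero]
    exact le_trans (abs_nonneg _) (le_max_left _ _)
  · have hn : 0 < ‖d‖ := norm_pos_iff.2 hd
    have hext2 : ∀ k < a + 1, ext (‖d‖⁻¹ • d) k = ‖d‖⁻¹ * c k := by
      intro k hk
      have h3 : ext (‖d‖⁻¹ • d) k = (‖d‖⁻¹ • d) ⟨k, hk⟩ := dif_pos hk
      rw [h3]; rfl
    have hK : ‖d‖⁻¹ • d ∈ K := by
      refine ⟨?_, ?_⟩
      · simp [norm_smul, hn.ne']
      · intro j hj
        have h1 := hc j hj
        have h2 : ∑ k ∈ range (a + 1), ext (‖d‖⁻¹ • d) k * x j k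
            = ‖d‖⁻¹ * ∑ k ∈ range (a + 1), c k * x j k := by
          rw [mul_sum]
          refine sum_congr rfl fun k hk => ?_
          rw [hext2 k (mem_range.1 hk)]; ring
        rw [h2]
        have : sg (s j) * (‖d‖⁻¹ * ∑ k ∈ range (a + 1), c k * x j k)
            = ‖d‖⁻¹ * (sg (s j) * ∑ k ∈ range (a + 1), c k * x j k) := by ring
        rw [this]
        exact mul_nonneg (inv_nonneg.2 hn.le) h1
    have h3 := hκK _ hK
    have h4 : g (‖d‖⁻¹ • d) = ‖d‖⁻¹ * max |c a| (sg ε * c (a - 1)) := by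
      simp only [g]
      rw [hext2 a (Nat.lt_succ_self a), hext2 (a - 1) (by omega), abs_mul,
        abs_of_pos (inv_pos.2 hn), mul_max_of_nonneg _ _ (inv_nonneg.2 hn.le)]
      congr 1
      ring
    rw [h4] at h3
    have h5 : κ * ‖d‖ ≤ max |c a| (sg ε * c (a - 1)) := by
      have := mul_le_mul_of_nonneg_right h3 hn.le
      rwa [mul_comm (‖d‖⁻¹ * _) ‖d‖, ← mul_assoc, mul_inv_cancel₀ hn.ne', one_mul] at this
    have h6 : |c i| ≤ ‖d‖ := by
      have := norm_le_pi_norm d ⟨i, hi⟩
      simpa [d] using this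
    exact le_trans (mul_le_mul_of_nonneg_left h6 hκ.le) h5

/-- The inequality which forces the state to move. -/
theorem column_ineq (c : ℕ → ℝ) (e : ℕ → Bool) (b : ℕ) (X ε : Bool) (M κ : ℝ)
    (hM : 1 ≤ M) (hMκ : (b : ℝ) + 1 < κ * M)
    (hX : X ≠ (e b == ε))
    (hk : ∀ i < b + 2, κ * |c i| ≤ max |c (b + 1)| (sg ε * c b))
    (hne : ∃ i < b + 2, c i ≠ 0)
    (hc : 0 ≤ sg X * ∑ i ∈ range (b + 2), c i * (sg (e i) * M ^ i)) :
    0 < sg (X == e (b + 1)) * c (b + 1) := by
  by_contra hcon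
  push Not at hcon
  have hX' : sg X * sg (e b) = - sg ε := by
    have h1 : X = !(e b == ε) := by
      cases X <;> cases h : (e b == ε) <;> simp_all
    rw [h1, sg_not', sg_beq]
    have := sg_mul_self (e b)
    calc -(sg (e b) * sg ε) * sg (e b) = -((sg (e b) * sg (e b)) * sg ε) := by ring
      _ = - sg ε := by rw [this, one_mul]
  have hσ : sg X * sg (e (b + 1)) * c (b + 1) = - |c (b + 1)| := by
    rw [sg_beq] at hcon
    have h1 : |sg X * sg (e (b + 1)) * c (b + 1)| = |c (b + 1)| := by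
      rw [abs_mul, abs_mul, abs_sg, abs_sg]; ring
    rw [← h1, abs_of_nonpos hcon]; ring
  -- the maximal coordinate
  obtain ⟨i0, hi0, hmax⟩ := exists_max_image (range (b + 2)) (fun i => |c i|)
    ⟨0, mem_range.2 (by omega)⟩
  set m := |c i0| with hm
  have hm0 : 0 < m := by
    obtain ⟨i, hi, hci⟩ := hne
    exact lt_of_lt_of_le (abs_pos.2 hci) (hmax i (mem_range.2 hi))
  have hM0 : 0 < M := lt_of_lt_of_le one_pos hM
  have hMb : 0 < M ^ b := pow_pos hM0 b
  rw [sum_range_succ, sum_range_succ] at hc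
  have hrest : |∑ i ∈ range b, c i * (sg (e i) * M ^ i)| * M ≤ b * m * M ^ b := by
    calc |∑ i ∈ range b, c i * (sg (e i) * M ^ i)| * M
        ≤ (∑ i ∈ range b, |c i * (sg (e i) * M ^ i)|) * M :=
          mul_le_mul_of_nonneg_right (abs_sum_le_sum_abs _ _) hM0.le
      _ = ∑ i ∈ range b, |c i| * M ^ (i + 1) := by
          rw [sum_mul]
          refine sum_congr rfl fun i _ => ?_
          rw [abs_mul, abs_mul, abs_sg, one_mul, abs_of_pos (pow_pos hM0 i), pow_succ]; ring
      _ ≤ ∑ i ∈ range b, m * M ^ b := by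
          refine sum_le_sum fun i hi => ?_
          have h1 : i < b := mem_range.1 hi
          refine mul_le_mul (hmax i (mem_range.2 (by omega))) (pow_le_pow_right₀ hM (by omega))
            (pow_pos hM0 _).le hm0.le
      _ = b * m * M ^ b := by rw [sum_const, card_range, nsmul_eq_mul]; ring
  set Rr := ∑ i ∈ range b, c i * (sg (e i) * M ^ i) with hRr
  have hexp : sg X * (Rr + c b * (sg (e b) * M ^ b) + c (b + 1) * (sg (e (b + 1)) * M ^ (b + 1)))
      = sg X * Rr - sg ε * c b * M ^ b - |c (b + 1)| * M ^ (b + 1) := by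
    have h1 : sg X * (Rr + c b * (sg (e b) * M ^ b)
        + c (b + 1) * (sg (e (b + 1)) * M ^ (b + 1)))
        = sg X * Rr + (sg X * sg (e b)) * c b * M ^ b
          + (sg X * sg (e (b + 1)) * c (b + 1)) * M ^ (b + 1) := by ring
    rw [h1, hX', hσ]; ring
  rw [hexp] at hc
  have hRX : sg X * Rr * M ≤ b * m * M ^ b := by
    refine le_trans ?_ hrest
    refine mul_le_mul_of_nonneg_right ?_ hM0.le
    calc sg X * Rr ≤ |sg X * Rr| := le_abs_self _
      _ = |Rr| := by rw [abs_mul, abs_sg, one_mul]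
  have hkm := hk i0 (mem_range.1 hi0)
  have hcb : |c b| ≤ m := hmax b (mem_range.2 (by omega))
  have hsb : |sg ε * c b| ≤ m := by rw [abs_mul, abs_sg, one_mul]; exact hcb
  have hsb' := abs_le.1 hsb
  have hb0 : (0 : ℝ) ≤ b := Nat.cast_nonneg b
  have hc' : 0 ≤ (sg X * Rr - sg ε * c b * M ^ b - |c (b + 1)| * M ^ (b + 1)) * M :=
    mul_nonneg hc hM0.le
  have hP : 0 < m * M ^ b := mul_pos hm0 hMb
  rcases le_max_iff.1 hkm with h1 | h1
  · -- the last coordinate is large
    have h2 : κ * m * M ^ (b + 1) * M ≤ |c (b + 1)| * M ^ (b + 1) * M :=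
      mul_le_mul_of_nonneg_right (mul_le_mul_of_nonneg_right h1 (pow_pos hM0 _).le) hM0.le
    have h3 : -(sg ε * c b) * M ^ b * M ≤ m * M ^ b * M :=
      mul_le_mul_of_nonneg_right (mul_le_mul_of_nonneg_right (by linarith) hMb.le) hM0.le
    have h4 : (m * M ^ b) * (κ * M * M) ≤ (m * M ^ b) * (b + M) := by
      have h5 : κ * m * M ^ (b + 1) * M = (m * M ^ b) * (κ * M * M) := by rw [pow_succ]; ring
      nlinarith [hc', hRX, h2, h3, h5]
    have h6 : κ * M * M ≤ b + M := le_of_mul_le_mul_left h4 hP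
    have h7 : ((b : ℝ) + 1) * M < κ * M * M := mul_lt_mul_of_pos_right hMκ hM0
    nlinarith [mul_nonneg hb0 (sub_nonneg.2 hM)]
  · -- the last but one coordinate is large
    have h2 : κ * m * M ^ b * M ≤ sg ε * c b * M ^ b * M :=
      mul_le_mul_of_nonneg_right (mul_le_mul_of_nonneg_right h1 hMb.le) hM0.le
    have h3 : 0 ≤ |c (b + 1)| * M ^ (b + 1) * M :=
      mul_nonneg (mul_nonneg (abs_nonneg _) (pow_pos hM0 _).le) hM0.le
    have h4 : (m * M ^ b) * (κ * M) ≤ (m * M ^ b) * b := by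
      nlinarith [hc', hRX, h2, h3]
    have h6 : κ * M ≤ b := le_of_mul_le_mul_left h4 hP
    linarith

/-- There is a column which makes every state move as prescribed. -/
theorem exists_column (x : ℕ → ℕ → ℝ) (n N : ℕ) (e : ℕ → Bool) :
    ∃ y : ℕ → ℝ, ∀ x' : ℕ → ℕ → ℝ, (∀ j < n, x' j = x j) → x' n = y →
      ∀ (s : ℕ → Bool) (a : ℕ) (ε : Bool), a ≤ N → St x n s a ε →
        St x' (n + 1) s (step e (a, ε) (s n)).1 (step e (a, ε) (s n)).2 := by
  classical
  -- one constant for all states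
  let pat : (Fin n → Bool) → ℕ → Bool := fun t j => if h : j < n then t ⟨j, h⟩ else true
  have hall : ∀ p : (Fin n → Bool) × Fin (N + 1) × Bool, ∃ κ : ℝ, 0 < κ ∧
      (St x n (pat p.1) p.2.1 p.2.2 → ∀ c : ℕ → ℝ,
        (∀ j < n, 0 ≤ sg (pat p.1 j) * ∑ i ∈ range ((p.2.1 : ℕ) + 1), c i * x j i) →
        ∀ i < (p.2.1 : ℕ) + 1, κ * |c i| ≤ max |c p.2.1| (sg p.2.2 * c ((p.2.1 : ℕ) - 1))) := by
    intro p
    by_cases hp : St x n (pat p.1) p.2.1 p.2.2
    · obtain ⟨κ, h1, h2⟩ := exists_kappa x n p.2.1 (pat p.1) p.2.2 hp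
      exact ⟨κ, h1, fun _ => h2⟩
    · exact ⟨1, one_pos, fun h => absurd h hp⟩
  choose κ hκ0 hκ using hall
  let M : ℝ := 1 + ∑ p, ((N : ℝ) + 2) / κ p
  have hterm : ∀ p, 0 ≤ ((N : ℝ) + 2) / κ p := fun p => div_nonneg (by positivity) (hκ0 p).le
  have hM1 : 1 ≤ M := by
    have : 0 ≤ ∑ p, ((N : ℝ) + 2) / κ p := sum_nonneg fun p _ => hterm p
    simp only [M]; linarith
  have hMp : ∀ p, ((N : ℝ) + 2) / κ p ≤ M := by
    intro p
    have : ((N : ℝ) + 2) / κ p ≤ ∑ q, ((N : ℝ) + 2) / κ q :=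
      single_le_sum (f := fun q => ((N : ℝ) + 2) / κ q) (fun q _ => hterm q) (mem_univ p)
    simp only [M]; linarith
  refine ⟨fun i => sg (e i) * M ^ i, ?_⟩
  intro x' hx' hxn s a ε ha hSt
  have hsum : ∀ (c : ℕ → ℝ) (r j : ℕ), j < n →
      ∑ i ∈ range r, c i * x' j i = ∑ i ∈ range r, c i * x j i := by
    intro c r j hj; rw [hx' j hj]
  by_cases hstay : a ≠ 0 ∧ s n = (e (a - 1) == ε)
  · have hst : step e (a, ε) (s n) = (a, ε) := by simp only [step]; rw [if_pos hstay]
    rw [hst]
    intro c hc hcomp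
    refine hSt c hc fun j hj => ?_
    have := hcomp j (by omega)
    rwa [hsum c a j hj] at this
  · have hst : step e (a, ε) (s n) = (a + 1, s n == e a) := by
      simp only [step]; rw [if_neg hstay]
    rw [hst]
    intro c hc hcomp
    simp only [Nat.add_sub_cancel]
    have hn := hcomp n (Nat.lt_succ_self n)
    rw [hxn] at hn
    -- the pattern of s
    let t : Fin n → Bool := fun j => s j
    have hpat : ∀ j < n, pat t j = s j := by intro j hj; simp [pat, t, hj]
    let p : (Fin n → Bool) × Fin (N + 1) × Bool := (t, ⟨a, by omega⟩, ε)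
    have hSt' : St x n (pat t) a ε := by
      intro c hc h
      refine hSt c hc fun j hj => ?_
      rw [← hpat j hj]; exact h j hj
    have hk := hκ p hSt' c (fun j hj => by
      have := hcomp j (by omega)
      rw [hsum c (a + 1) j hj] at this
      change 0 ≤ sg (pat t j) * _
      rw [hpat j hj]; exact this)
    change ∀ i < a + 1, κ p * |c i| ≤ max |c a| (sg ε * c (a - 1)) at hk
    rcases Nat.eq_zero_or_pos a with h0 | h0
    · subst h0
      obtain ⟨i, hi, hci⟩ := hc
      have hi0 : i = 0 := by omega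
      subst hi0
      simp only [zero_add, range_one, sum_singleton, pow_zero, mul_one] at hn
      rw [sg_beq]
      have h1 : 0 ≤ sg (s n) * sg (e 0) * c 0 := by
        calc (0 : ℝ) ≤ sg (s n) * (c 0 * sg (e 0)) := hn
          _ = sg (s n) * sg (e 0) * c 0 := by ring
      refine lt_of_le_of_ne h1 (Ne.symm ?_)
      refine mul_ne_zero (mul_ne_zero ?_ ?_) hci
      · intro h; have := abs_sg (s n); rw [h] at this; simp at this
      · intro h; have := abs_sg (e 0); rw [h] at this; simp at this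
    · obtain ⟨b, rfl⟩ : ∃ b, a = b + 1 := ⟨a - 1, by omega⟩
      have hX : s n ≠ (e b == ε) := by
        intro h; exact hstay ⟨by omega, by simpa using h⟩
      refine column_ineq c e b (s n) ε M (κ p) hM1 ?_ hX ?_ hc ?_
      · have h1 := hMp p
        rw [div_le_iff₀ (hκ0 p)] at h1
        have h2 : (b : ℝ) + 1 ≤ N := by exact_mod_cast ha
        linarith [mul_comm M (κ p)]
      · intro i hi
        have h3 := hk i hi
        rwa [Nat.add_sub_cancel] at h3
      · exact hn

end Pool.Agent.H67.Nu
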