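import Mathlib

/-!
Upper bound `ν(d) ≤ 5d/2 - 1` for even `d` (MP_1e71f9_co): common definitions.

Rows (coordinates) are numbered from `0`; level `a` uses the rows `0, …, a - 1`.
-/

set_option autoImplicit false

namespace Pool.Agent.H67.Nu

open Finset

/-- The sign of a Boolean. -/
def sg (b : Bool) : ℝ := if b then 1 else -1

/-- `St x n s a ε`: every nonzero functional `c` on the first `a` coordinates with
`s_j ⟨c, x_j⟩ ≥ 0` for all `j < n` has its last coordinate `c_{a-1}` nonzero and of sign `ε`. -/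
def St (x : ℕ → ℕ → ℝ) (n : ℕ) (s : ℕ → Bool) (a : ℕ) (ε : Bool) : Prop :=
  ∀ c : ℕ → ℝ, (∃ i < a, c i ≠ 0) →
    (∀ j < n, 0 ≤ sg (s j) * ∑ i ∈ range a, c i * x j i) → 0 < sg ε * c (a - 1)

/-- No nonzero functional on the first `r` coordinates is weakly compatible with `s` on the
first `n` vectors. -/
def Dead (x : ℕ → ℕ → ℝ) (n r : ℕ) (s : ℕ → Bool) : Prop :=
  ∀ c : ℕ → ℝ, (∃ i < r, c i ≠ 0) → ∃ j < n, sg (s j) * ∑ i ∈ range r, c i * x j i < 0

/-- The transition of a state `(a, ε)` when a column with sign pattern `e` and sign `x` is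
appended. -/
def step (e : ℕ → Bool) (p : ℕ × Bool) (x : Bool) : ℕ × Bool :=
  if p.1 ≠ 0 ∧ x = (e (p.1 - 1) == p.2) then p else (p.1 + 1, x == e p.1)

/-- The sign pattern of the column number `j ≥ 10` (counted from `0`), row `i` (from `0`). -/
def col (j i : ℕ) : Bool :=
  decide ((5 * i + 2) / 2 ≤ j + 2) || decide (((5 * i + 2) / 2 - (j + 2)) % 2 = 0)

/-- Sign change at one place. -/
def flip (s : ℕ → Bool) (i : ℕ) : ℕ → Bool := Function.update s i (!s i)

/-- A family of vectors for which no sign vector is complete, in a strong (open) form: every sign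
vector `s` or one of its neighbours admits no nonzero weakly compatible functional. -/
def SBad {n r : ℕ} (v : Fin n → Fin r → ℝ) : Prop :=
  ∀ s : Fin n → Bool, ∃ t : Fin n → Bool, (t = s ∨ ∃ i, t = Function.update s i (!s i)) ∧
    ∀ c : Fin r → ℝ, c ≠ 0 → ∃ j, sg (t j) * ∑ i, c i * v j i < 0

/-- The data of a projective transformation `x ↦ (A x + b) / (⟨c, x⟩ + δ)` of `ℝ^d`: the block
matrix `(A b; c δ)` is invertible. -/
structure ProjTrans (d : ℕ) where
  /-- linear part -/
  A : Matrix (Fin d) (Fin d) ℝ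
  /-- translation part -/
  b : Fin d → ℝ
  /-- linear part of the denominator -/
  c : Fin d → ℝ
  /-- constant part of the denominator -/
  δ : ℝ
  /-- the block matrix is invertible -/
  inv : IsUnit (Matrix.fromBlocks A (Matrix.of fun i (_ : Unit) => b i)
    (Matrix.of fun (_ : Unit) j => c j) (Matrix.of fun (_ : Unit) (_ : Unit) => δ))

/-- The denominator `⟨c, x⟩ + δ`. -/
def ProjTrans.den {d : ℕ} (T : ProjTrans d) (x : Fin d → ℝ) : ℝ := (∑ i, T.c i * x i) + T.δ

/-- The map `x ↦ (A x + b) / (⟨c, x⟩ + δ)`. -/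
noncomputable def ProjTrans.map {d : ℕ} (T : ProjTrans d) (x : Fin d → ℝ) : Fin d → ℝ :=
  fun i => ((∑ k, T.A i k * x k) + T.b i) / T.den x

/-- No `d + 1` of the points lie on a common affine hyperplane `⟨c, y⟩ + δ = 0`, `c ≠ 0`. -/
def GenPos {d n : ℕ} (x : Fin n → Fin d → ℝ) : Prop :=
  ∀ (c : Fin d → ℝ) (δ : ℝ), c ≠ 0 →
    (univ.filter fun i => (∑ k, c k * x i k) + δ = 0).card ≤ d

/-- Some permissible projective transformation sends the points `x_j` to points in convex
position: every image point is a vertex of the convex hull of the images. -/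
def Mappable {d n : ℕ} (x : Fin n → Fin d → ℝ) : Prop :=
  ∃ T : ProjTrans d, (∀ j, T.den (x j) ≠ 0) ∧
    ∀ j, T.map (x j) ∉ convexHull ℝ ((fun k => T.map (x k)) '' {k | k ≠ j})

end Pool.Agent.H67.Nu
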