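import Pool.Agent.H67.Nu.Machine

/-!
From the column lemma and a good prefix to strongly bad families of vectors.
-/

set_option autoImplicit false

namespace Pool.Agent.H67.Nu

open Finset

theorem St.dead {x : ℕ → ℕ → ℝ} {n : ℕ} {s : ℕ → Bool} {a r : ℕ} {ε : Bool}
    (h : St x n s a ε) (hr : r < a) : Dead x n r s := by
  intro c hc
  by_contra hcon
  push Not at hcon
  have key := h (fun i => if i < r then c i else 0) ?_ ?_
  · have : ¬ a - 1 < r := by omega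
    simp [this] at key
  · obtain ⟨i, hi, hci⟩ := hc
    exact ⟨i, by omega, by simpa [hi] using hci⟩
  · intro j hj
    have e : ∑ i ∈ range a, (if i < r then c i else 0) * x j i = ∑ i ∈ range r, c i * x j i := by
      rw [← Finset.sum_subset (s₁ := range r) (s₂ := range a)]
      · exact Finset.sum_congr rfl fun i hi => by simp [Finset.mem_range.1 hi]
      · exact Finset.range_subset_range.2 hr.le
      · intro i _ hi
        have : ¬ i < r := fun h' => hi (Finset.mem_range.2 h')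
        simp [this]
    rw [e]
    exact hcon j hj

theorem step_le (e : ℕ → Bool) (p : ℕ × Bool) (x : Bool) : (step e p x).1 ≤ p.1 + 1 := by
  unfold step
  split_ifs <;> simp

/-- The column lemma, as a hypothesis. -/
def ColumnLemma : Prop :=
  ∀ (x : ℕ → ℕ → ℝ) (n N : ℕ) (e : ℕ → Bool),
    ∃ y : ℕ → ℝ, ∀ x' : ℕ → ℕ → ℝ, (∀ j < n, x' j = x j) → x' n = y →
      ∀ (s : ℕ → Bool) (a : ℕ) (ε : Bool), a ≤ N → St x n s a ε →
        St x' (n + 1) s (step e (a, ε) (s n)).1 (step e (a, ε) (s n)).2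

theorem exists_seq (hB : ColumnLemma) {p0 : (ℕ → Bool) → ℕ × Bool} {X : ℕ → ℕ → ℝ}
    (h0 : ∀ s, St X 10 s (p0 s).1 (p0 s).2) (hle : ∀ s, (p0 s).1 ≤ 10) :
    ∀ k, ∃ x : ℕ → ℕ → ℝ, ∀ s, St x (10 + k) s (stt p0 s k).1 (stt p0 s k).2 ∧
      (stt p0 s k).1 ≤ 10 + k
  | 0 => ⟨X, fun s => ⟨h0 s, hle s⟩⟩
  | k + 1 => by
    obtain ⟨x, hx⟩ := exists_seq hB h0 hle k
    obtain ⟨y, hy⟩ := hB x (10 + k) (10 + k) (col (10 + k))
    refine ⟨fun j => if j < 10 + k then x j else y, fun s => ⟨?_, ?_⟩⟩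
    · exact hy _ (fun j hj => by simp [hj]) (by simp) s (stt p0 s k).1 (stt p0 s k).2 (hx s).2
        (hx s).1
    · have h1 := step_le (col (10 + k)) (stt p0 s k) (s (10 + k))
      have h2 := (hx s).2
      simp only [stt]
      omega

theorem exists_bad (hB : ColumnLemma) {p0 : (ℕ → Bool) → ℕ × Bool} {X : ℕ → ℕ → ℝ}
    (h0 : ∀ s, St X 10 s (p0 s).1 (p0 s).2) (hle : ∀ s, (p0 s).1 ≤ 10)
    (hp0 : ∀ s i, 10 ≤ i → p0 (flip s i) = p0 s) (hpos : ∀ s, 1 ≤ (p0 s).1)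
    (hP : ∀ s, 6 ≤ (stt p0 s 1).1 ∨
      ∃ i < 10, 28 ≤ 3 * (stt p0 (flip s i) 1).1 + 2 * (stt p0 s 1).1) (m : ℕ) (hm : 3 ≤ m) :
    ∃ x : ℕ → ℕ → ℝ, ∀ s : ℕ → Bool, ∃ t, (t = s ∨ ∃ i < 5 * m, t = flip s i) ∧
      Dead x (5 * m) (2 * m + 1) t := by
  obtain ⟨x, hx⟩ := exists_seq hB h0 hle (5 * m - 10)
  have e : 10 + (5 * m - 10) = 5 * m := by omega
  rw [e] at hx
  refine ⟨x, fun s => ?_⟩
  obtain ⟨t, ht, hrow⟩ := machine hp0 hpos hP m hm s
  exact ⟨t, ht, (hx t).1.dead (by omega)⟩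

theorem SBad.of_dead {x : ℕ → ℕ → ℝ} {N r : ℕ}
    (h : ∀ s : ℕ → Bool, ∃ t, (t = s ∨ ∃ i < N, t = flip s i) ∧ Dead x N r t) (n : ℕ)
    (hn : N ≤ n) : SBad (fun (j : Fin n) (i : Fin r) => x j i) := by
  intro s
  obtain ⟨t, ht, hd⟩ := h (fun j => if h : j < n then s ⟨j, h⟩ else true)
  refine ⟨fun j => t j, ?_, ?_⟩
  · rcases ht with rfl | ⟨i, hi, rfl⟩
    · left
      funext j
      simp
    · right
      refine ⟨⟨i, by omega⟩, ?_⟩
      funext j
      by_cases hj : (j : ℕ) = i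
      · subst hj
        simp [flip]
      · have h2 : j ≠ ⟨i, by omega⟩ := fun h' => hj (by rw [h'])
        simp [flip, Function.update_of_ne hj, Function.update_of_ne h2]
  · intro c hc
    obtain ⟨i0, hi0⟩ := Function.ne_iff.1 hc
    obtain ⟨j, hj, hlt⟩ := hd (fun i => if h : i < r then c ⟨i, h⟩ else 0)
      ⟨i0, i0.2, by simpa using hi0⟩
    refine ⟨⟨j, by omega⟩, ?_⟩
    rw [Finset.sum_range] at hlt
    simpa using hlt

end Pool.Agent.H67.Nu
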