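import Mathlib
import Pool.Agent.H67.Nu.Defs

/-!
General position by a small perturbation (MP_1e71f9_co): the set of families which are bad in the
strong form is open, and moving every vector along the moment curve makes all maximal minors and
all zeroth coordinates nonzero.
-/

set_option autoImplicit false

namespace Pool.Agent.H67.Nu

open Finset Topology

/-- The condition of `SBad` for one fixed sign vector is open. -/
theorem isOpen_dead {n r : ℕ} (t : Fin n → Bool) :
    IsOpen {w : Fin n → Fin r → ℝ |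
      ∀ c : Fin r → ℝ, c ≠ 0 → ∃ j, sg (t j) * ∑ i, c i * w j i < 0} := by
  classical
  let K : Set (Metric.sphere (0 : Fin r → ℝ) 1 × (Fin n → Fin r → ℝ)) :=
    {p | ∀ j, 0 ≤ sg (t j) * ∑ i, (p.1 : Fin r → ℝ) i * p.2 j i}
  have hK : IsClosed K := by
    have : K = ⋂ j, {p : Metric.sphere (0 : Fin r → ℝ) 1 × (Fin n → Fin r → ℝ) |
        0 ≤ sg (t j) * ∑ i, (p.1 : Fin r → ℝ) i * p.2 j i} := by
      ext p
      simp [K]
    rw [this]
    refine isClosed_iInter fun j => isClosed_le continuous_const ?_
    refine continuous_const.mul (continuous_finsetSum _ fun i _ => ?_)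
    refine Continuous.mul ?_ ?_
    · exact (continuous_apply i).comp (continuous_subtype_val.comp continuous_fst)
    · exact (continuous_apply i).comp ((continuous_apply j).comp continuous_snd)
  have himg : IsClosed (Prod.snd '' K) := isClosedMap_snd_of_compactSpace K hK
  have heq : {w : Fin n → Fin r → ℝ |
      ∀ c : Fin r → ℝ, c ≠ 0 → ∃ j, sg (t j) * ∑ i, c i * w j i < 0} = (Prod.snd '' K)ᶜ := by
    ext w
    simp only [Set.mem_ofPred_eq, Set.mem_compl_iff, Set.mem_image, Prod.exists, exists_eq_right,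
      not_exists]
    constructor
    · intro h c hc
      have hc0 : (c : Fin r → ℝ) ≠ 0 := by
        intro h0
        have := c.2
        rw [mem_sphere_zero_iff_norm, h0, norm_zero] at this
        exact zero_ne_one this
      obtain ⟨j, hj⟩ := h c hc0
      exact absurd (hc j) (not_le.mpr hj)
    · intro h c hc
      by_contra hcon
      push Not at hcon
      have hn : 0 < ‖c‖ := norm_pos_iff.mpr hc
      refine h ⟨‖c‖⁻¹ • c, ?_⟩ ?_
      · rw [mem_sphere_zero_iff_norm, norm_smul, norm_inv, norm_norm, inv_mul_cancel₀ hn.ne']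
      · intro j
        have h1 : ∑ i, (‖c‖⁻¹ • c) i * w j i = ‖c‖⁻¹ * ∑ i, c i * w j i := by
          rw [Finset.mul_sum]
          refine Finset.sum_congr rfl fun i _ => ?_
          simp only [Pi.smul_apply, smul_eq_mul]
          ring
        show 0 ≤ sg (t j) * ∑ i, (‖c‖⁻¹ • c) i * w j i
        rw [h1, mul_left_comm]
        exact mul_nonneg (inv_nonneg.mpr hn.le) (hcon j)
  rw [heq]
  exact himg.isOpen_compl

/-- The set of strongly bad families is open. -/
theorem isOpen_sbad {n r : ℕ} : IsOpen {w : Fin n → Fin r → ℝ | SBad w} := by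
  classical
  have heq : {w : Fin n → Fin r → ℝ | SBad w} = ⋂ s : Fin n → Bool, ⋃ t : Fin n → Bool,
      ⋃ _ : t = s ∨ ∃ i, t = Function.update s i (!s i),
        {w : Fin n → Fin r → ℝ |
          ∀ c : Fin r → ℝ, c ≠ 0 → ∃ j, sg (t j) * ∑ i, c i * w j i < 0} := by
    ext w
    simp only [SBad, Set.mem_ofPred_eq, Set.mem_iInter, Set.mem_iUnion, exists_prop]
  rw [heq]
  refine isOpen_iInter_of_finite fun s => isOpen_iUnion fun t => isOpen_iUnion fun _ => ?_
  exact isOpen_dead t

/-- A strongly bad family can be perturbed to a strongly bad one with all maximal minors and all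
zeroth coordinates nonzero. -/
theorem exists_generic {n d : ℕ} {v : Fin n → Fin (d + 1) → ℝ} (h : SBad v) :
    ∃ w : Fin n → Fin (d + 1) → ℝ, SBad w ∧
      (∀ f : Fin (d + 1) → Fin n, Function.Injective f →
        (Matrix.of fun i => w (f i)).det ≠ 0) ∧ ∀ j, w j 0 ≠ 0 := by
  classical
  let τ : Fin n → ℝ := fun j => (j : ℕ) + 1
  have hτ : Function.Injective τ := by
    intro a b hab
    have : ((a : ℕ) : ℝ) = (b : ℕ) := by
      simpa [τ] using hab
    exact Fin.ext (by exact_mod_cast this)
  let w : ℝ → Fin n → Fin (d + 1) → ℝ := fun t j i => t * τ j ^ (i : ℕ) + v j i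
  have hwc : Continuous w := by
    refine continuous_pi fun j => continuous_pi fun i => ?_
    exact (continuous_id.mul continuous_const).add continuous_const
  have hw0 : w 0 = v := by
    funext j i
    simp [w]
  have hev : ∀ᶠ t in 𝓝 (0 : ℝ), SBad (w t) := by
    have hmem : w 0 ∈ {w : Fin n → Fin (d + 1) → ℝ | SBad w} := by
      rw [hw0]
      exact h
    exact hwc.continuousAt.eventually (isOpen_sbad.mem_nhds hmem)
  -- the finitely many bad parameters
  let P : (Fin (d + 1) → Fin n) → Polynomial ℝ := fun f =>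
    (((Polynomial.X : Polynomial ℝ) •
      (Matrix.vandermonde fun i => τ (f i)).map Polynomial.C +
      (Matrix.of fun i => v (f i)).map Polynomial.C).det)
  have hPne : ∀ f : Fin (d + 1) → Fin n, Function.Injective f → P f ≠ 0 := by
    intro f hf hP
    have h1 := Polynomial.coeff_det_X_add_C_card (Matrix.vandermonde fun i => τ (f i))
      (Matrix.of fun i => v (f i))
    have h2 : (P f).coeff (Fintype.card (Fin (d + 1))) =
        (Matrix.vandermonde fun i => τ (f i)).det := h1
    rw [hP, Polynomial.coeff_zero] at h2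
    exact (Matrix.det_vandermonde_ne_zero_iff.mpr (hτ.comp hf)) h2.symm
  have hPev : ∀ (f : Fin (d + 1) → Fin n) (t : ℝ),
      (P f).eval t = (Matrix.of fun i => w t (f i)).det := by
    intro f t
    have h1 : (P f).eval t = (Polynomial.evalRingHom t) (P f) := rfl
    rw [h1]
    simp only [P]
    rw [RingHom.map_det]
    congr 1
    ext i j
    simp [w, Matrix.vandermonde_apply]
  let S : Set ℝ := (⋃ f ∈ {f : Fin (d + 1) → Fin n | Function.Injective f},
    {t | (P f).eval t = 0}) ∪ ⋃ j : Fin n, {-(v j 0)}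
  have hS : S.Finite := by
    refine Set.Finite.union ?_ (Set.finite_iUnion fun j => Set.finite_singleton _)
    refine Set.Finite.biUnion (Set.toFinite _) fun f hf => ?_
    exact Polynomial.finite_setOfPred_isRoot (hPne f hf)
  have hne : ∀ᶠ t in 𝓝[≠] (0 : ℝ), t ∉ S := by
    have h1 : (S \ {0})ᶜ ∈ 𝓝 (0 : ℝ) :=
      (hS.subset Set.sdiff_subset).isClosed.isOpen_compl.mem_nhds (by simp)
    filter_upwards [mem_nhdsWithin_of_mem_nhds h1, self_mem_nhdsWithin] with t ht ht0 htS
    exact ht ⟨htS, ht0⟩
  have hboth : ∀ᶠ t in 𝓝[≠] (0 : ℝ), SBad (w t) ∧ t ∉ S :=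
    (hev.filter_mono nhdsWithin_le_nhds).and hne
  obtain ⟨t, htb, htS⟩ := hboth.exists
  refine ⟨w t, htb, fun f hf hdet => ?_, fun j hj => ?_⟩
  · apply htS
    left
    simp only [Set.mem_iUnion]
    exact ⟨f, hf, by rw [Set.mem_ofPred_eq, hPev f t]; exact hdet⟩
  · apply htS
    right
    simp only [Set.mem_iUnion, Set.mem_singleton_iff]
    refine ⟨j, ?_⟩
    have : t * τ j ^ (((0 : Fin (d + 1)) : ℕ)) + v j 0 = 0 := hj
    simp at this
    linarith

end Pool.Agent.H67.Nu
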