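import Pool.Agent.H67.Nu.Defs

/-!
The combinatorial part: the rows reached by a sign vector and its neighbours along the tail
columns.
-/

set_option autoImplicit false

namespace Pool.Agent.H67.Nu

open Finset

/-- State of `s` after `10 + k` columns, if `p0 s` is its state after the first ten. -/
def stt (p0 : (ℕ → Bool) → ℕ × Bool) (s : ℕ → Bool) : ℕ → ℕ × Bool
  | 0 => p0 s
  | k + 1 => step (col (10 + k)) (stt p0 s k) (s (10 + k))

/-- The move of a row with threshold `L`. -/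
def mvL (L a : ℕ) (same : Bool) : ℕ := if (a ≤ L ↔ same = true) then a else a + 1

theorem step_snd (e : ℕ → Bool) (p : ℕ × Bool) (x : Bool) :
    (step e p x).2 = (x == e ((step e p x).1 - 1)) := by
  unfold step
  split_ifs with h
  · rw [h.2]
    cases e (p.1 - 1) <;> cases p.2 <;> rfl
  · simp

theorem step_fst_pos (e : ℕ → Bool) (p : ℕ × Bool) (x : Bool) : 1 ≤ (step e p x).1 := by
  unfold step
  split_ifs with h
  · omega
  · simp

theorem col_eq (j a : ℕ) (ha : 1 ≤ a) :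
    (col (j + 1) (a - 1) == col j (a - 1)) = decide (5 * a ≤ 2 * (j + 1) + 6) := by
  obtain ⟨i, rfl⟩ : ∃ i, a = i + 1 := ⟨a - 1, by omega⟩
  simp only [col, Nat.add_sub_cancel]
  have h0 : (5 * (i + 1) ≤ 2 * (j + 1) + 6) = ((5 * i + 2) / 2 ≤ j + 2) := by
    apply propext; omega
  simp only [h0]
  generalize (5 * i + 2) / 2 = t
  by_cases h1 : t ≤ j + 2
  · have h2 : t ≤ j + 1 + 2 := by omega
    rw [decide_eq_true h1, decide_eq_true h2]
    rfl
  · by_cases h2 : t ≤ j + 1 + 2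
    · have h4 : ¬ (t - (j + 2)) % 2 = 0 := by omega
      rw [decide_eq_false h1, decide_eq_true h2, decide_eq_false h4]
      rfl
    · rw [decide_eq_false h1, decide_eq_false h2]
      by_cases h5 : (t - (j + 2)) % 2 = 0
      · have h6 : ¬ (t - (j + 1 + 2)) % 2 = 0 := by omega
        rw [decide_eq_true h5, decide_eq_false h6]
        rfl
      · have h6 : (t - (j + 1 + 2)) % 2 = 0 := by omega
        rw [decide_eq_false h5, decide_eq_true h6]
        rfl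

/-- A regular state moves by `mvL`. -/
theorem step_fst (j L : ℕ) (hL : ∀ a, 5 * a ≤ 2 * (j + 1) + 6 ↔ a ≤ L) (p : ℕ × Bool)
    (x x' : Bool) (hp : 1 ≤ p.1) (hr : p.2 = (x' == col j (p.1 - 1))) :
    (step (col (j + 1)) p x).1 = mvL L p.1 (x == x') := by
  have h := col_eq j p.1 hp
  have h0 : p.1 ≠ 0 := by omega
  unfold step mvL
  rw [hr]
  simp only [h0, ne_eq, not_false_eq_true, true_and]
  by_cases hc : 5 * p.1 ≤ 2 * (j + 1) + 6
  · rw [decide_eq_true hc] at h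
    simp only [(hL p.1).1 hc, true_iff]
    revert h
    cases x <;> cases x' <;> cases col (j + 1) (p.1 - 1) <;> cases col j (p.1 - 1) <;> simp
  · rw [decide_eq_false hc] at h
    have hc' : ¬ p.1 ≤ L := fun h' => hc ((hL p.1).2 h')
    simp only [hc', false_iff]
    revert h
    cases x <;> cases x' <;> cases col (j + 1) (p.1 - 1) <;> cases col j (p.1 - 1) <;> simp

theorem mvL_le_true {L a : ℕ} (h : a ≤ L) : mvL L a true = a := by simp [mvL, h]
theorem mvL_le_false {L a : ℕ} (h : a ≤ L) : mvL L a false = a + 1 := by simp [mvL, h]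
theorem mvL_gt_true {L a : ℕ} (h : ¬ a ≤ L) : mvL L a true = a + 1 := by simp [mvL, h]
theorem mvL_gt_false {L a : ℕ} (h : ¬ a ≤ L) : mvL L a false = a := by simp [mvL, h]

/-- The invariant, `5 q + 1 = N + 1`, `N` the number of columns. -/
def Inv1 (q a b c : ℕ) : Prop :=
  2 * q + 2 ≤ a ∨ (a = 2 * q + 1 ∧ c = a + 1) ∨ 10 * q + 6 ≤ 3 * b + 2 * a
/-- The invariant, `5 q + 2 = N + 1`. -/
def Inv2 (q a b : ℕ) : Prop := 2 * q + 2 ≤ a ∨ 10 * q + 8 ≤ 3 * b + 2 * a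
/-- The invariant, `5 q + 3 = N + 1`. -/
def Inv3 (q a b : ℕ) : Prop := 2 * q + 2 ≤ a ∨ 10 * q + 10 ≤ 3 * b + 2 * a
/-- The invariant, `5 q + 4 = N + 1`. -/
def Inv4 (q a b c : ℕ) : Prop :=
  2 * q + 3 ≤ a ∨ (a = 2 * q + 2 ∧ c = a + 1) ∨ 10 * q + 12 ≤ 3 * b + 2 * a
/-- The invariant, `5 q + 5 = N + 1`. -/
def Inv5 (q a b c : ℕ) : Prop :=
  2 * q + 3 ≤ a ∨ (a = 2 * q + 2 ∧ c = a + 1 ∧ a + 1 ≤ b) ∨ 10 * q + 14 ≤ 3 * b + 2 * a

theorem inv12 (q a b c : ℕ) (same : Bool) (h : Inv1 q a b c) :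
    Inv2 q (mvL (2 * q + 1) a same) (mvL (2 * q + 1) b same) ∨
      Inv2 q (mvL (2 * q + 1) a same) (mvL (2 * q + 1) c !same) := by
  unfold Inv1 at h; unfold Inv2
  cases same <;> by_cases ha : a ≤ 2 * q + 1 <;> by_cases hb : b ≤ 2 * q + 1 <;>
    by_cases hcc : c ≤ 2 * q + 1 <;>
    simp only [mvL_le_true, mvL_le_false, mvL_gt_true, mvL_gt_false, ha, hb, hcc,
      not_false_eq_true, Bool.not_true, Bool.not_false, and_true, true_and] <;> omega

theorem inv23 (q a b c : ℕ) (same : Bool) (h : Inv2 q a b) :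
    Inv3 q (mvL (2 * q + 1) a same) (mvL (2 * q + 1) b same) ∨
      Inv3 q (mvL (2 * q + 1) a same) (mvL (2 * q + 1) c !same) := by
  unfold Inv2 at h; unfold Inv3
  cases same <;> by_cases ha : a ≤ 2 * q + 1 <;> by_cases hb : b ≤ 2 * q + 1 <;>
    by_cases hcc : c ≤ 2 * q + 1 <;>
    simp only [mvL_le_true, mvL_le_false, mvL_gt_true, mvL_gt_false, ha, hb, hcc,
      not_false_eq_true, Bool.not_true, Bool.not_false, and_true, true_and] <;> omega

theorem inv34 (q a b c : ℕ) (same : Bool) (hc : c = a + 1 ∨ c + 1 = a) (h : Inv3 q a b) :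
    Inv4 q (mvL (2 * q + 2) a same) (mvL (2 * q + 2) b same) (mvL (2 * q + 2) a !same) ∨
      Inv4 q (mvL (2 * q + 2) a same) (mvL (2 * q + 2) c !same) (mvL (2 * q + 2) a !same) := by
  unfold Inv3 at h; unfold Inv4
  cases same <;> by_cases ha : a ≤ 2 * q + 2 <;> by_cases hb : b ≤ 2 * q + 2 <;>
    by_cases hcc : c ≤ 2 * q + 2 <;>
    simp only [mvL_le_true, mvL_le_false, mvL_gt_true, mvL_gt_false, ha, hb, hcc,
      not_false_eq_true, Bool.not_true, Bool.not_false, and_true, true_and] <;> omega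

theorem inv45 (q a b c : ℕ) (same : Bool) (hc : c = a + 1 ∨ c + 1 = a) (h : Inv4 q a b c) :
    Inv5 q (mvL (2 * q + 2) a same) (mvL (2 * q + 2) b same) (mvL (2 * q + 2) a !same) ∨
      Inv5 q (mvL (2 * q + 2) a same) (mvL (2 * q + 2) c !same) (mvL (2 * q + 2) a !same) := by
  unfold Inv4 at h; unfold Inv5
  cases same <;> by_cases ha : a ≤ 2 * q + 2 <;> by_cases hb : b ≤ 2 * q + 2 <;>
    by_cases hcc : c ≤ 2 * q + 2 <;>
    simp only [mvL_le_true, mvL_le_false, mvL_gt_true, mvL_gt_false, ha, hb, hcc,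
      not_false_eq_true, Bool.not_true, Bool.not_false, and_true, true_and] <;> omega

theorem inv51 (q a b c : ℕ) (same : Bool) (hc : c = a + 1 ∨ c + 1 = a) (h : Inv5 q a b c) :
    Inv1 (q + 1) (mvL (2 * q + 2) a same) (mvL (2 * q + 2) b same) (mvL (2 * q + 2) a !same) ∨
      Inv1 (q + 1) (mvL (2 * q + 2) a same) (mvL (2 * q + 2) c !same)
        (mvL (2 * q + 2) a !same) := by
  unfold Inv5 at h; unfold Inv1
  cases same <;> by_cases ha : a ≤ 2 * q + 2 <;> by_cases hb : b ≤ 2 * q + 2 <;>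
    by_cases hcc : c ≤ 2 * q + 2 <;>
    simp only [mvL_le_true, mvL_le_false, mvL_gt_true, mvL_gt_false, ha, hb, hcc,
      not_false_eq_true, Bool.not_true, Bool.not_false, and_true, true_and] <;> omega

section

variable {p0 : (ℕ → Bool) → ℕ × Bool}

theorem stt_pos (p0 : (ℕ → Bool) → ℕ × Bool) (s : ℕ → Bool) (k : ℕ) :
    1 ≤ (stt p0 s (k + 1)).1 := step_fst_pos _ _ _

theorem stt_regular (p0 : (ℕ → Bool) → ℕ × Bool) (s : ℕ → Bool) (k : ℕ) :
    (stt p0 s (k + 1)).2 = (s (10 + k) == col (10 + k) ((stt p0 s (k + 1)).1 - 1)) :=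
  step_snd _ _ _

theorem stt_succ (p0 : (ℕ → Bool) → ℕ × Bool) (s : ℕ → Bool) (k L : ℕ)
    (hL : ∀ a, 5 * a ≤ 2 * (11 + k) + 6 ↔ a ≤ L) :
    (stt p0 s (k + 2)).1 =
      mvL L (stt p0 s (k + 1)).1 (s (11 + k) == s (10 + k)) := by
  have e : 11 + k = 10 + k + 1 := by omega
  rw [e] at hL
  have h := step_fst (10 + k) L hL (stt p0 s (k + 1)) (s (10 + k + 1)) (s (10 + k))
    (stt_pos p0 s k) (stt_regular p0 s k)
  rw [e, ← h]
  rfl

theorem flip_ne {s : ℕ → Bool} {i j : ℕ} (h : j ≠ i) : flip s i j = s j := by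
  simp [flip, Function.update_of_ne h]

theorem flip_self (s : ℕ → Bool) (i : ℕ) : flip s i i = !s i := by
  simp [flip]

theorem stt_congr (hp0 : ∀ s i, 10 ≤ i → p0 (flip s i) = p0 s) (s : ℕ → Bool) (i : ℕ)
    (hi : 10 ≤ i) : ∀ k, 10 + k ≤ i → stt p0 (flip s i) k = stt p0 s k
  | 0, _ => hp0 s i hi
  | k + 1, hk => by
    simp only [stt]
    rw [stt_congr hp0 s i hi k (by omega), flip_ne (by omega : 10 + k ≠ i)]

/-- One step of the induction, for an abstract invariant. -/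
theorem main_step (hp0 : ∀ s i, 10 ≤ i → p0 (flip s i) = p0 s) (s : ℕ → Bool) (k L : ℕ)
    (hL : ∀ a, 5 * a ≤ 2 * (11 + k) + 6 ↔ a ≤ L) (P Q : ℕ → ℕ → ℕ → Prop)
    (hPQ : ∀ a b c same, (c = a + 1 ∨ c + 1 = a) → P a b c →
      Q (mvL L a same) (mvL L b same) (mvL L a !same) ∨
        Q (mvL L a same) (mvL L c !same) (mvL L a !same))
    (h : ((stt p0 (flip s (10 + k)) (k + 1)).1 = (stt p0 s (k + 1)).1 + 1 ∨
        (stt p0 (flip s (10 + k)) (k + 1)).1 + 1 = (stt p0 s (k + 1)).1) ∧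
      ∃ i < 10 + k, P (stt p0 s (k + 1)).1 (stt p0 (flip s i) (k + 1)).1
        (stt p0 (flip s (10 + k)) (k + 1)).1) :
    ((stt p0 (flip s (11 + k)) (k + 2)).1 = (stt p0 s (k + 2)).1 + 1 ∨
        (stt p0 (flip s (11 + k)) (k + 2)).1 + 1 = (stt p0 s (k + 2)).1) ∧
      ∃ i < 11 + k, Q (stt p0 s (k + 2)).1 (stt p0 (flip s i) (k + 2)).1
        (stt p0 (flip s (11 + k)) (k + 2)).1 := by
  obtain ⟨hc, i, hi, hP⟩ := h
  have e1 := stt_succ p0 s k L hL
  have e2 := stt_succ p0 (flip s (11 + k)) k L hL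
  rw [stt_congr hp0 s (11 + k) (by omega) (k + 1) (by omega), flip_self,
    flip_ne (by omega : 10 + k ≠ 11 + k)] at e2
  have e3 := stt_succ p0 (flip s i) k L hL
  rw [flip_ne (by omega : 11 + k ≠ i), flip_ne (by omega : 10 + k ≠ i)] at e3
  have e4 := stt_succ p0 (flip s (10 + k)) k L hL
  rw [flip_ne (by omega : 11 + k ≠ 10 + k), flip_self] at e4
  have n1 : ((!s (11 + k)) == s (10 + k)) = !(s (11 + k) == s (10 + k)) := by
    cases s (11 + k) <;> cases s (10 + k) <;> rfl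
  have n2 : (s (11 + k) == !s (10 + k)) = !(s (11 + k) == s (10 + k)) := by
    cases s (11 + k) <;> cases s (10 + k) <;> rfl
  rw [n1] at e2
  rw [n2] at e4
  generalize (s (11 + k) == s (10 + k)) = same at e1 e2 e3 e4
  constructor
  · rw [e1, e2]
    cases same <;> simp only [mvL, Bool.not_true, Bool.not_false] <;> split_ifs <;> simp_all
  · rcases hPQ _ _ _ same hc hP with hQ | hQ
    · exact ⟨i, by omega, by rw [e1, e2, e3]; exact hQ⟩
    · exact ⟨10 + k, by omega, by rw [e1, e2, e4]; exact hQ⟩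

/-- The relation between a state and its newest neighbour. -/
theorem step_flip (e : ℕ → Bool) (p : ℕ × Bool) (x : Bool) (hp : 1 ≤ p.1) :
    (step e p !x).1 = (step e p x).1 + 1 ∨ (step e p !x).1 + 1 = (step e p x).1 := by
  have h0 : p.1 ≠ 0 := by omega
  unfold step
  simp only [h0, ne_eq, not_false_eq_true, true_and]
  cases x <;> cases (e (p.1 - 1) == p.2) <;> simp

/-- The statement carried along the tail. -/
def Stage (p0 : (ℕ → Bool) → ℕ × Bool) (s : ℕ → Bool) (k : ℕ) (P : ℕ → ℕ → ℕ → Prop) : Prop :=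
  ((stt p0 (flip s (10 + k)) (k + 1)).1 = (stt p0 s (k + 1)).1 + 1 ∨
      (stt p0 (flip s (10 + k)) (k + 1)).1 + 1 = (stt p0 s (k + 1)).1) ∧
    ∃ i < 10 + k, P (stt p0 s (k + 1)).1 (stt p0 (flip s i) (k + 1)).1
      (stt p0 (flip s (10 + k)) (k + 1)).1

theorem Stage.next (hp0 : ∀ s i, 10 ≤ i → p0 (flip s i) = p0 s) {s : ℕ → Bool} {k k' : ℕ}
    (hk : k' = k + 1) (L : ℕ)
    (hL : ∀ a, 5 * a ≤ 2 * (11 + k) + 6 ↔ a ≤ L) {P Q : ℕ → ℕ → ℕ → Prop}
    (hPQ : ∀ a b c same, (c = a + 1 ∨ c + 1 = a) → P a b c →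
      Q (mvL L a same) (mvL L b same) (mvL L a !same) ∨
        Q (mvL L a same) (mvL L c !same) (mvL L a !same))
    (h : Stage p0 s k P) : Stage p0 s k' Q := by
  subst hk
  have := main_step hp0 s k L hL P Q hPQ h
  have e : 10 + (k + 1) = 11 + k := by omega
  unfold Stage
  rw [e]
  exact this

theorem stage_zero (hp0 : ∀ s i, 10 ≤ i → p0 (flip s i) = p0 s) (hpos : ∀ s, 1 ≤ (p0 s).1)
    (hP : ∀ s, 6 ≤ (stt p0 s 1).1 ∨
      ∃ i < 10, 28 ≤ 3 * (stt p0 (flip s i) 1).1 + 2 * (stt p0 s 1).1) (s : ℕ → Bool) :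
    Stage p0 s 0 fun a b _ => Inv2 2 a b := by
  constructor
  · have := step_flip (col 10) (p0 s) (s 10) (hpos s)
    simp only [stt, add_zero]
    rw [hp0 s 10 le_rfl, flip_self]
    exact this
  · rcases hP s with h | ⟨i, hi, h⟩
    · exact ⟨0, by omega, Or.inl h⟩
    · exact ⟨i, by omega, Or.inr h⟩

theorem stage_period (hp0 : ∀ s i, 10 ≤ i → p0 (flip s i) = p0 s) (s : ℕ → Bool) (q : ℕ)
    (hq : 2 ≤ q) (h : Stage p0 s (5 * (q - 2)) fun a b _ => Inv2 q a b) :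
    Stage p0 s (5 * (q - 2) + 4) (Inv1 (q + 1)) := by
  have h3 : Stage p0 s (5 * (q - 2) + 1) fun a b _ => Inv3 q a b :=
    h.next hp0 rfl (2 * q + 1) (fun a => by omega) (fun a b c same _ hI => inv23 q a b c same hI)
  have h4 : Stage p0 s (5 * (q - 2) + 2) (Inv4 q) :=
    h3.next hp0 rfl (2 * q + 2) (fun a => by omega)
      (fun a b c same hc hI => inv34 q a b c same hc hI)
  have h5 : Stage p0 s (5 * (q - 2) + 3) (Inv5 q) :=
    h4.next hp0 rfl (2 * q + 2) (fun a => by omega)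
      (fun a b c same hc hI => inv45 q a b c same hc hI)
  exact h5.next hp0 rfl (2 * q + 2) (fun a => by omega)
    (fun a b c same hc hI => inv51 q a b c same hc hI)

theorem stage_inv1 (hp0 : ∀ s i, 10 ≤ i → p0 (flip s i) = p0 s) (hpos : ∀ s, 1 ≤ (p0 s).1)
    (hP : ∀ s, 6 ≤ (stt p0 s 1).1 ∨
      ∃ i < 10, 28 ≤ 3 * (stt p0 (flip s i) 1).1 + 2 * (stt p0 s 1).1) (s : ℕ → Bool) :
    ∀ q, Stage p0 s (5 * q + 4) (Inv1 (q + 3))
  | 0 => stage_period hp0 s 2 le_rfl (stage_zero hp0 hpos hP s)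
  | q + 1 => by
    have h1 := stage_inv1 hp0 hpos hP s q
    have h2 : Stage p0 s (5 * (q + 3 - 2)) fun a b _ => Inv2 (q + 3) a b :=
      h1.next hp0 (by omega) (2 * (q + 3) + 1) (fun a => by omega)
        (fun a b c same _ hI => inv12 (q + 3) a b c same hI)
    exact stage_period hp0 s (q + 3) (by omega) h2

/-- **The tail.** -/
theorem machine (hp0 : ∀ s i, 10 ≤ i → p0 (flip s i) = p0 s) (hpos : ∀ s, 1 ≤ (p0 s).1)
    (hP : ∀ s, 6 ≤ (stt p0 s 1).1 ∨
      ∃ i < 10, 28 ≤ 3 * (stt p0 (flip s i) 1).1 + 2 * (stt p0 s 1).1) (m : ℕ) (hm : 3 ≤ m)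
    (s : ℕ → Bool) :
    ∃ t, (t = s ∨ ∃ i < 5 * m, t = flip s i) ∧ 2 * m + 2 ≤ (stt p0 t (5 * m - 10)).1 := by
  obtain ⟨q, rfl⟩ : ∃ q, m = q + 3 := ⟨m - 3, by omega⟩
  obtain ⟨-, i, hi, h⟩ := stage_inv1 hp0 hpos hP s q
  have e : 5 * q + 4 + 1 = 5 * (q + 3) - 10 := by omega
  rw [e] at h
  rcases h with h | ⟨h1, h2⟩ | h
  · exact ⟨s, Or.inl rfl, h⟩
  · exact ⟨_, Or.inr ⟨10 + (5 * q + 4), by omega, rfl⟩, by omega⟩
  · by_cases ha : 2 * (q + 3) + 2 ≤ (stt p0 s (5 * (q + 3) - 10)).1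
    · exact ⟨s, Or.inl rfl, ha⟩
    · exact ⟨_, Or.inr ⟨i, by omega, rfl⟩, by omega⟩

end

end Pool.Agent.H67.Nu
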