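import Pool.Agent.H67.Nu.Machine
import Pool.Agent.H67.Nu.Family

/-!
The tail machine after a prefix of eleven columns, up to the place where a right block can be
attached.
-/

set_option autoImplicit false

namespace Pool.Agent.H67.Nu

open Finset

/-- State of `s` after `N0 + k` columns, if `p0 s` is its state after the first `N0`. -/
def stG (N0 : ℕ) (e : ℕ → ℕ → Bool) (p0 : (ℕ → Bool) → ℕ × Bool) (s : ℕ → Bool) :
    ℕ → ℕ × Bool
  | 0 => p0 s
  | k + 1 => step (e (N0 + k)) (stG N0 e p0 s k) (s (N0 + k))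

section

variable {N0 : ℕ} {e : ℕ → ℕ → Bool} {p0 : (ℕ → Bool) → ℕ × Bool}

theorem stG_pos (s : ℕ → Bool) (k : ℕ) : 1 ≤ (stG N0 e p0 s (k + 1)).1 := step_fst_pos _ _ _

theorem stG_regular (s : ℕ → Bool) (k : ℕ) :
    (stG N0 e p0 s (k + 1)).2 = (s (N0 + k) == e (N0 + k) ((stG N0 e p0 s (k + 1)).1 - 1)) :=
  step_snd _ _ _

/-- A regular state moves by `mvL`. -/
theorem step_fst' (e e' : ℕ → Bool) (L : ℕ)
    (he : ∀ a, 1 ≤ a → (e (a - 1) == e' (a - 1)) = decide (a ≤ L)) (p : ℕ × Bool)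
    (x x' : Bool) (hp : 1 ≤ p.1) (hr : p.2 = (x' == e' (p.1 - 1))) :
    (step e p x).1 = mvL L p.1 (x == x') := by
  have h := he p.1 hp
  have h0 : p.1 ≠ 0 := by omega
  unfold step mvL
  rw [hr]
  simp only [h0, ne_eq, not_false_eq_true, true_and]
  by_cases hc : p.1 ≤ L
  · rw [decide_eq_true hc] at h
    simp only [hc, true_iff]
    revert h
    cases x <;> cases x' <;> cases e (p.1 - 1) <;> cases e' (p.1 - 1) <;> simp
  · rw [decide_eq_false hc] at h
    simp only [hc, false_iff]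
    revert h
    cases x <;> cases x' <;> cases e (p.1 - 1) <;> cases e' (p.1 - 1) <;> simp

theorem stG_succ (s : ℕ → Bool) (k L : ℕ)
    (he : ∀ a, 1 ≤ a → (e (N0 + k + 1) (a - 1) == e (N0 + k) (a - 1)) = decide (a ≤ L)) :
    (stG N0 e p0 s (k + 2)).1 =
      mvL L (stG N0 e p0 s (k + 1)).1 (s (N0 + k + 1) == s (N0 + k)) := by
  have h := step_fst' (e (N0 + k + 1)) (e (N0 + k)) L he (stG N0 e p0 s (k + 1))
    (s (N0 + k + 1)) (s (N0 + k)) (stG_pos s k) (stG_regular s k)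
  rw [← h]
  rfl

theorem stG_congr (hp0 : ∀ s i, N0 ≤ i → p0 (flip s i) = p0 s) (s : ℕ → Bool) (i : ℕ)
    (hi : N0 ≤ i) : ∀ k, N0 + k ≤ i → stG N0 e p0 (flip s i) k = stG N0 e p0 s k
  | 0, _ => hp0 s i hi
  | k + 1, hk => by
    simp only [stG]
    rw [stG_congr hp0 s i hi k (by omega), flip_ne (by omega : N0 + k ≠ i)]

variable (N0 e p0) in
/-- The statement carried along the tail. -/
def StageG (s : ℕ → Bool) (k : ℕ) (P : ℕ → ℕ → ℕ → Prop) : Prop :=
  ((stG N0 e p0 (flip s (N0 + k)) (k + 1)).1 = (stG N0 e p0 s (k + 1)).1 + 1 ∨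
      (stG N0 e p0 (flip s (N0 + k)) (k + 1)).1 + 1 = (stG N0 e p0 s (k + 1)).1) ∧
    ∃ i < N0 + k, P (stG N0 e p0 s (k + 1)).1 (stG N0 e p0 (flip s i) (k + 1)).1
      (stG N0 e p0 (flip s (N0 + k)) (k + 1)).1

theorem StageG.next (hp0 : ∀ s i, N0 ≤ i → p0 (flip s i) = p0 s) {s : ℕ → Bool} {k k' : ℕ}
    (hk : k' = k + 1) (L : ℕ)
    (he : ∀ a, 1 ≤ a → (e (N0 + k + 1) (a - 1) == e (N0 + k) (a - 1)) = decide (a ≤ L))
    {P Q : ℕ → ℕ → ℕ → Prop}
    (hPQ : ∀ a b c same, (c = a + 1 ∨ c + 1 = a) → P a b c →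
      Q (mvL L a same) (mvL L b same) (mvL L a !same) ∨
        Q (mvL L a same) (mvL L c !same) (mvL L a !same))
    (h : StageG N0 e p0 s k P) : StageG N0 e p0 s k' Q := by
  subst hk
  obtain ⟨hc, i, hi, hP⟩ := h
  have e1 := stG_succ (p0 := p0) s k L he
  have e2 := stG_succ (p0 := p0) (flip s (N0 + k + 1)) k L he
  rw [stG_congr hp0 s (N0 + k + 1) (by omega) (k + 1) (by omega), flip_self,
    flip_ne (by omega : N0 + k ≠ N0 + k + 1)] at e2
  have e3 := stG_succ (p0 := p0) (flip s i) k L he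
  rw [flip_ne (by omega : N0 + k + 1 ≠ i), flip_ne (by omega : N0 + k ≠ i)] at e3
  have e4 := stG_succ (p0 := p0) (flip s (N0 + k)) k L he
  rw [flip_ne (by omega : N0 + k + 1 ≠ N0 + k), flip_self] at e4
  have n1 : ((!s (N0 + k + 1)) == s (N0 + k)) = !(s (N0 + k + 1) == s (N0 + k)) := by
    cases s (N0 + k + 1) <;> cases s (N0 + k) <;> rfl
  have n2 : (s (N0 + k + 1) == !s (N0 + k)) = !(s (N0 + k + 1) == s (N0 + k)) := by
    cases s (N0 + k + 1) <;> cases s (N0 + k) <;> rfl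
  rw [n1] at e2
  rw [n2] at e4
  generalize (s (N0 + k + 1) == s (N0 + k)) = same at e1 e2 e3 e4
  have e5 : N0 + (k + 1) = N0 + k + 1 := by omega
  unfold StageG
  rw [e5]
  constructor
  · rw [e1, e2]
    cases same <;> simp only [mvL, Bool.not_true, Bool.not_false] <;> split_ifs <;> simp_all
  · rcases hPQ _ _ _ same hc hP with hQ | hQ
    · exact ⟨i, by omega, by rw [e1, e2, e3]; exact hQ⟩
    · exact ⟨N0 + k, by omega, by rw [e1, e2, e4]; exact hQ⟩

end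

/-- The sign pattern of the column number `n ≥ 11`, row `i`. -/
def col2 (n i : ℕ) : Bool := (min n ((5 * i + 1) / 2) - 11) % 2 == 0

theorem col2_eq (n a : ℕ) (ha : 1 ≤ a) (hn : 11 ≤ n) (L : ℕ)
    (hL : 5 * a ≤ 2 * n + 5 ↔ a ≤ L) :
    (col2 (n + 1) (a - 1) == col2 n (a - 1)) = decide (a ≤ L) := by
  obtain ⟨i, rfl⟩ : ∃ i, a = i + 1 := ⟨a - 1, by omega⟩
  simp only [col2, Nat.add_sub_cancel]
  have h0 : (i + 1 ≤ L) = ((5 * i + 1) / 2 ≤ n) := by
    apply propext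
    rw [← hL]
    omega
  simp only [h0]
  generalize (5 * i + 1) / 2 = t
  by_cases h1 : t ≤ n
  · rw [decide_eq_true h1, min_eq_right h1, min_eq_right (by omega : t ≤ n + 1)]
    simp
  · rw [decide_eq_false h1, min_eq_left (by omega : n ≤ t), min_eq_left (by omega : n + 1 ≤ t)]
    have h2 : n + 1 - 11 = (n - 11) + 1 := by omega
    rw [h2]
    generalize n - 11 = u
    rcases Nat.mod_two_eq_zero_or_one u with h | h
    · have h3 : (u + 1) % 2 = 1 := by omega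
      rw [h, h3]
      rfl
    · have h3 : (u + 1) % 2 = 0 := by omega
      rw [h, h3]
      rfl

/-- Invariant, phase 0. -/
def Q0 (h a b : ℕ) : Prop := h + 1 ≤ a ∨ 2 * h + 1 ≤ a + b
/-- Invariant, phase 1. -/
def Q1 (h a b : ℕ) : Prop := h + 1 ≤ a ∨ 2 * h + 2 ≤ a + b
/-- Invariant, phase 2. -/
def Q2 (h a b c : ℕ) : Prop := h + 2 ≤ a ∨ (a = h + 1 ∧ c = a + 1) ∨ 2 * h + 3 ≤ a + b
/-- Invariant, phase 3. -/
def Q3 (h a b c : ℕ) : Prop :=
  h + 2 ≤ a ∨ 2 * h + 4 ≤ a + b ∨ (a = h + 1 ∧ c = a + 1 ∧ h + 2 ≤ b)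
/-- Invariant, phase 4. -/
def Q4 (h a b c : ℕ) : Prop :=
  h + 3 ≤ a ∨ (a = h + 2 ∧ c = a + 1) ∨ 2 * h + 5 ≤ a + b ∨ (a ≤ h + 1 ∧ a + b = 2 * h + 4)

theorem q01 (h a b c : ℕ) (same : Bool) (H : Q0 h a b) :
    Q1 h (mvL h a same) (mvL h b same) ∨ Q1 h (mvL h a same) (mvL h c !same) := by
  unfold Q0 at H; unfold Q1
  cases same <;> by_cases ha : a ≤ h <;> by_cases hb : b ≤ h <;> by_cases hcc : c ≤ h <;>
    simp only [mvL_le_true, mvL_le_false, mvL_gt_true, mvL_gt_false, ha, hb, hcc,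
      not_false_eq_true, Bool.not_true, Bool.not_false, and_true, true_and] <;> omega

theorem q12 (h a b c : ℕ) (same : Bool) (hc : c = a + 1 ∨ c + 1 = a) (H : Q1 h a b) :
    Q2 h (mvL h a same) (mvL h b same) (mvL h a !same) ∨
      Q2 h (mvL h a same) (mvL h c !same) (mvL h a !same) := by
  unfold Q1 at H; unfold Q2
  cases same <;> by_cases ha : a ≤ h <;> by_cases hb : b ≤ h <;> by_cases hcc : c ≤ h <;>
    simp only [mvL_le_true, mvL_le_false, mvL_gt_true, mvL_gt_false, ha, hb, hcc,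
      not_false_eq_true, Bool.not_true, Bool.not_false, and_true, true_and] <;> omega

theorem q23 (h a b c : ℕ) (same : Bool) (hc : c = a + 1 ∨ c + 1 = a) (H : Q2 h a b c) :
    Q3 h (mvL h a same) (mvL h b same) (mvL h a !same) ∨
      Q3 h (mvL h a same) (mvL h c !same) (mvL h a !same) := by
  unfold Q2 at H; unfold Q3
  cases same <;> by_cases ha : a ≤ h <;> by_cases hb : b ≤ h <;> by_cases hcc : c ≤ h <;>
    simp only [mvL_le_true, mvL_le_false, mvL_gt_true, mvL_gt_false, ha, hb, hcc,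
      not_false_eq_true, Bool.not_true, Bool.not_false, and_true, true_and] <;> omega

theorem q34 (h a b c : ℕ) (same : Bool) (hc : c = a + 1 ∨ c + 1 = a) (H : Q3 h a b c) :
    Q4 h (mvL (h + 1) a same) (mvL (h + 1) b same) (mvL (h + 1) a !same) ∨
      Q4 h (mvL (h + 1) a same) (mvL (h + 1) c !same) (mvL (h + 1) a !same) := by
  unfold Q3 at H; unfold Q4
  cases same <;> by_cases ha : a ≤ h + 1 <;> by_cases hb : b ≤ h + 1 <;>
    by_cases hcc : c ≤ h + 1 <;>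
    simp only [mvL_le_true, mvL_le_false, mvL_gt_true, mvL_gt_false, ha, hb, hcc,
      not_false_eq_true, Bool.not_true, Bool.not_false, and_true, true_and] <;> omega

theorem q40 (h a b c : ℕ) (same : Bool) (hc : c = a + 1 ∨ c + 1 = a) (H : Q4 h a b c) :
    Q0 (h + 2) (mvL (h + 1) a same) (mvL (h + 1) b same) ∨
      Q0 (h + 2) (mvL (h + 1) a same) (mvL (h + 1) c !same) := by
  unfold Q4 at H; unfold Q0
  cases same <;> by_cases ha : a ≤ h + 1 <;> by_cases hb : b ≤ h + 1 <;>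
    by_cases hcc : c ≤ h + 1 <;>
    simp only [mvL_le_true, mvL_le_false, mvL_gt_true, mvL_gt_false, ha, hb, hcc,
      not_false_eq_true, Bool.not_true, Bool.not_false, and_true, true_and] <;> omega

section

variable {p0 : (ℕ → Bool) → ℕ × Bool}

theorem stage2_zero (hp0 : ∀ s i, 11 ≤ i → p0 (flip s i) = p0 s) (hpos : ∀ s, 1 ≤ (p0 s).1)
    (hP : ∀ s, 6 ≤ (p0 s).1 ∨ ∃ i < 11, 12 ≤ (p0 s).1 + (p0 (flip s i)).1 ∨
      ((p0 s).1 + (p0 (flip s i)).1 = 11 ∧ (p0 (flip s i)).2 = !(p0 s).2)) (s : ℕ → Bool) :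
    StageG 11 col2 p0 s 0 fun a b _ => Q1 5 a b := by
  have hcol : ∀ i, col2 11 i = true := by
    intro i
    have : min 11 ((5 * i + 1) / 2) - 11 = 0 := by omega
    simp only [col2, this]
    rfl
  have hst : ∀ p : ℕ × Bool, 1 ≤ p.1 → ∀ x : Bool,
      (step (col2 11) p x).1 = if x = p.2 then p.1 else p.1 + 1 := by
    intro p hp x
    have h0 : p.1 ≠ 0 := by omega
    unfold step
    simp only [hcol, h0, ne_eq, not_false_eq_true, true_and]
    have : (true == p.2) = p.2 := by cases p.2 <;> rfl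
    rw [this]
    split_ifs <;> rfl
  constructor
  · have := step_flip (col2 11) (p0 s) (s 11) (hpos s)
    simp only [stG, add_zero]
    rw [hp0 s 11 le_rfl, flip_self]
    exact this
  · simp only [stG, add_zero]
    rcases hP s with h | ⟨i, hi, h⟩
    · refine ⟨0, by omega, Or.inl ?_⟩
      rw [hst _ (hpos _)]
      split_ifs <;> omega
    · refine ⟨i, hi, Or.inr ?_⟩
      rw [hst _ (hpos _), hst _ (hpos _), flip_ne (by omega : 11 ≠ i)]
      rcases h with h | ⟨h, hs⟩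
      · split_ifs <;> omega
      · rw [hs]
        cases s 11 <;> cases (p0 s).2 <;> simp <;> omega

theorem stage2_period (hp0 : ∀ s i, 11 ≤ i → p0 (flip s i) = p0 s) (s : ℕ → Bool) (u : ℕ)
    (h : StageG 11 col2 p0 s (5 * u) fun a b _ => Q1 (2 * u + 5) a b) :
    StageG 11 col2 p0 s (5 * u + 2) (Q3 (2 * u + 5)) ∧
      StageG 11 col2 p0 s (5 * u + 4) fun a b _ => Q0 (2 * u + 7) a b := by
  have h2 : StageG 11 col2 p0 s (5 * u + 1) (Q2 (2 * u + 5)) :=
    h.next hp0 rfl (2 * u + 5) (fun a ha => col2_eq _ a ha (by omega) _ (by omega))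
      (fun a b c same hc hI => q12 _ a b c same hc hI)
  have h3 : StageG 11 col2 p0 s (5 * u + 2) (Q3 (2 * u + 5)) :=
    h2.next hp0 rfl (2 * u + 5) (fun a ha => col2_eq _ a ha (by omega) _ (by omega))
      (fun a b c same hc hI => q23 _ a b c same hc hI)
  have h4 : StageG 11 col2 p0 s (5 * u + 3) (Q4 (2 * u + 5)) :=
    h3.next hp0 rfl (2 * u + 5 + 1) (fun a ha => col2_eq _ a ha (by omega) _ (by omega))
      (fun a b c same hc hI => q34 _ a b c same hc hI)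
  exact ⟨h3, h4.next hp0 rfl (2 * u + 5 + 1)
    (fun a ha => col2_eq _ a ha (by omega) _ (by omega))
    (fun a b c same hc hI => q40 _ a b c same hc hI)⟩

theorem stage2_all (hp0 : ∀ s i, 11 ≤ i → p0 (flip s i) = p0 s) (hpos : ∀ s, 1 ≤ (p0 s).1)
    (hP : ∀ s, 6 ≤ (p0 s).1 ∨ ∃ i < 11, 12 ≤ (p0 s).1 + (p0 (flip s i)).1 ∨
      ((p0 s).1 + (p0 (flip s i)).1 = 11 ∧ (p0 (flip s i)).2 = !(p0 s).2)) (s : ℕ → Bool) :
    ∀ u, StageG 11 col2 p0 s (5 * u) fun a b _ => Q1 (2 * u + 5) a b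
  | 0 => stage2_zero hp0 hpos hP s
  | u + 1 => by
    have h := (stage2_period hp0 s u (stage2_all hp0 hpos hP s u)).2
    exact h.next hp0 (by omega) (2 * u + 7)
      (fun a ha => col2_eq _ a ha (by omega) _ (by omega))
      (fun a b c same _ hI => q01 _ a b c same hI)

/-- **The left end.** After `11 + k` columns, `k = ⌈5t/2⌉`, `t ≥ 1`, every sign vector has a
neighbour (or itself) such that the two levels add up to at least `2 t + 11`; both states have
the sign given by the last column. -/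
theorem left_end (hp0 : ∀ s i, 11 ≤ i → p0 (flip s i) = p0 s) (hpos : ∀ s, 1 ≤ (p0 s).1)
    (hP : ∀ s, 6 ≤ (p0 s).1 ∨ ∃ i < 11, 12 ≤ (p0 s).1 + (p0 (flip s i)).1 ∨
      ((p0 s).1 + (p0 (flip s i)).1 = 11 ∧ (p0 (flip s i)).2 = !(p0 s).2)) (s : ℕ → Bool)
    (t k : ℕ) (hk : k + 1 = (5 * t + 1) / 2) (ht : 1 ≤ t) :
    ∃ w, (w = s ∨ ∃ i < 11 + k, w = flip s i) ∧
      2 * t + 11 ≤ (stG 11 col2 p0 s (k + 1)).1 + (stG 11 col2 p0 w (k + 1)).1 := by
  rcases Nat.even_or_odd' t with ⟨u, rfl | rfl⟩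
  · obtain ⟨v, rfl⟩ : ∃ v, u = v + 1 := ⟨u - 1, by omega⟩
    obtain ⟨-, i, hi, h⟩ := (stage2_period hp0 s v (stage2_all hp0 hpos hP s v)).2
    obtain rfl : k = 5 * v + 4 := by omega
    rcases h with h | h
    · exact ⟨s, Or.inl rfl, by omega⟩
    · exact ⟨_, Or.inr ⟨i, hi, rfl⟩, by omega⟩
  · obtain ⟨-, i, hi, h⟩ := (stage2_period hp0 s u (stage2_all hp0 hpos hP s u)).1
    obtain rfl : k = 5 * u + 2 := by omega
    rcases h with h | h | h
    · exact ⟨s, Or.inl rfl, by omega⟩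
    · exact ⟨_, Or.inr ⟨i, hi, rfl⟩, by omega⟩
    · exact ⟨_, Or.inr ⟨i, hi, rfl⟩, by omega⟩

end

end Pool.Agent.H67.Nu
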