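import Mathlib
import Pool.Agent.H67.Nu.Defs

/-!
From a bad family of vectors in `ℝ^(d+1)` to points of `ℝ^d` in general position which no
permissible projective transformation sends to the vertices of a convex polytope
(MP_1e71f9_co).
-/

set_option autoImplicit false

namespace Pool.Agent.H67.Nu

open Finset

/-- The pairing of a vector with the functional `(c₀, c)`, in terms of the point
`x = (w_1/w_0, …, w_d/w_0)`. -/
theorem pair_eq {d : ℕ} (w : Fin (d + 1) → ℝ) (h0 : w 0 ≠ 0) (C : Fin (d + 1) → ℝ) :
    ∑ i, C i * w i = w 0 * ((∑ k : Fin d, C k.succ * (w k.succ / w 0)) + C 0) := by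
  rw [Fin.sum_univ_succ, mul_add, Finset.mul_sum]
  have : ∀ k : Fin d, w 0 * (C k.succ * (w k.succ / w 0)) = C k.succ * w k.succ := by
    intro k
    field_simp
  rw [Finset.sum_congr rfl fun k _ => this k]
  ring

/-- The pairing of a vector with the functional `(δ, c)` of the denominator. -/
theorem pair_cons {d : ℕ} (w : Fin (d + 1) → ℝ) (h0 : w 0 ≠ 0) (c : Fin d → ℝ) (δ : ℝ) :
    ∑ i, (Fin.cons δ c : Fin (d + 1) → ℝ) i * w i =
      w 0 * ((∑ k : Fin d, c k * (w k.succ / w 0)) + δ) := by
  rw [pair_eq w h0]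
  simp

theorem genPos_of_det {n d : ℕ} (w : Fin n → Fin (d + 1) → ℝ)
    (hg : ∀ f : Fin (d + 1) → Fin n, Function.Injective f → (Matrix.of fun i => w (f i)).det ≠ 0)
    (h0 : ∀ j, w j 0 ≠ 0) : GenPos (fun j (i : Fin d) => w j i.succ / w j 0) := by
  classical
  intro c δ hc
  by_contra hcon
  push Not at hcon
  set S : Finset (Fin n) :=
    univ.filter fun i => (∑ k : Fin d, c k * (w i k.succ / w i 0)) + δ = 0 with hS
  have hcard : d + 1 ≤ S.card := hcon
  obtain ⟨S', hS', hcard'⟩ := Finset.exists_subset_card_eq hcard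
  let e : Fin (d + 1) ≃ S' := (Finset.equivFinOfCardEq hcard').symm
  let f : Fin (d + 1) → Fin n := fun i => (e i : Fin n)
  have hf : Function.Injective f := fun a b hab => e.injective (Subtype.ext hab)
  have hmem : ∀ i, (∑ k : Fin d, c k * (w (f i) k.succ / w (f i) 0)) + δ = 0 := by
    intro i
    have : f i ∈ S := hS' (e i).2
    rw [hS, Finset.mem_filter] at this
    exact this.2
  have hdet := hg f hf
  have hmul : (Matrix.of fun i => w (f i)).mulVec (Fin.cons δ c : Fin (d + 1) → ℝ) = 0 := by
    funext i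
    have h1 := pair_cons (w (f i)) (h0 (f i)) c δ
    rw [hmem i, mul_zero] at h1
    simp only [Matrix.mulVec, dotProduct, Matrix.of_apply, Pi.zero_apply]
    rw [← h1]
    exact Finset.sum_congr rfl fun k _ => mul_comm _ _
  have hz := Matrix.eq_zero_of_mulVec_eq_zero hdet hmul
  apply hc
  funext k
  have := congrFun hz k.succ
  simpa using this

/-- The functional on `ℝ^(d+1)` obtained from a linear functional with coefficients `a` and the
level `u` on the image side. -/
noncomputable def pull {d : ℕ} (T : ProjTrans d) (a : Fin d → ℝ) (u : ℝ) : Fin (d + 1) → ℝ :=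
  Fin.cons ((∑ k, a k * T.b k) - u * T.δ) fun l => (∑ k, a k * T.A k l) - u * T.c l

theorem pull_pair {d : ℕ} (T : ProjTrans d) (a : Fin d → ℝ) (u : ℝ) (w : Fin (d + 1) → ℝ)
    (h0 : w 0 ≠ 0) (hden : T.den (fun i => w i.succ / w 0) ≠ 0) :
    ∑ i, pull T a u i * w i =
      (w 0 * T.den (fun i => w i.succ / w 0)) *
        ((∑ k, a k * T.map (fun i => w i.succ / w 0) k) - u) := by
  set x : Fin d → ℝ := fun i => w i.succ / w 0 with hx
  have h1 : ∑ i, pull T a u i * w i =
      w 0 * ((∑ l : Fin d, ((∑ k, a k * T.A k l) - u * T.c l) * x l) +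
        ((∑ k, a k * T.b k) - u * T.δ)) := by
    unfold pull
    rw [pair_cons w h0]
  rw [h1, mul_assoc]
  congr 1
  rw [mul_sub, Finset.mul_sum]
  have h2 : ∀ k, T.den x * (a k * T.map x k) = a k * ((∑ l, T.A k l * x l) + T.b k) := by
    intro k
    unfold ProjTrans.map
    field_simp
  rw [Finset.sum_congr rfl fun k _ => h2 k]
  have h3 : ∑ l : Fin d, ((∑ k, a k * T.A k l) - u * T.c l) * x l =
      (∑ k, a k * ∑ l, T.A k l * x l) - u * ∑ l, T.c l * x l := by
    simp only [sub_mul, Finset.sum_sub_distrib, Finset.sum_mul, Finset.mul_sum]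
    congr 1
    · rw [Finset.sum_comm]
      refine Finset.sum_congr rfl fun k _ => Finset.sum_congr rfl fun l _ => by ring
    · refine Finset.sum_congr rfl fun l _ => by ring
  rw [h3]
  unfold ProjTrans.den
  simp only [mul_add, Finset.sum_add_distrib]
  ring

theorem sg_decide_mul {y : ℝ} (hy : y ≠ 0) : 0 < sg (decide (0 < y)) * y := by
  unfold sg
  by_cases h : 0 < y
  · simp [h]
  · have : y < 0 := lt_of_le_of_ne (not_lt.mp h) hy
    simp [h, this]

theorem sg_not (b : Bool) : sg (!b) = - sg b := by
  cases b <;> simp [sg]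

/-- Every bad family of vectors, in general position and with nonzero zeroth coordinates, gives
points in general position which no permissible projective transformation puts in convex
position. -/
theorem not_mappable {n d : ℕ} (w : Fin n → Fin (d + 1) → ℝ) (hb : SBad w)
    (hg : ∀ f : Fin (d + 1) → Fin n, Function.Injective f → (Matrix.of fun i => w (f i)).det ≠ 0)
    (h0 : ∀ j, w j 0 ≠ 0) :
    GenPos (fun j (i : Fin d) => w j i.succ / w j 0) ∧
      ¬ Mappable (fun j (i : Fin d) => w j i.succ / w j 0) := by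
  classical
  refine ⟨genPos_of_det w hg h0, ?_⟩
  rintro ⟨T, hden, hvert⟩
  let x : Fin n → Fin d → ℝ := fun j i => w j i.succ / w j 0
  have hden' : ∀ j, T.den (x j) ≠ 0 := hden
  let s : Fin n → Bool := fun j => decide (0 < w j 0 * T.den (x j))
  have hs : ∀ j, 0 < sg (s j) * (w j 0 * T.den (x j)) := fun j =>
    sg_decide_mul (mul_ne_zero (h0 j) (hden' j))
  obtain ⟨t, ht, hdead⟩ := hb s
  rcases ht with rfl | ⟨i, rfl⟩
  · -- the denominator itself is a strictly compatible functional
    have hpair : ∀ j, ∑ i, (Fin.cons T.δ T.c : Fin (d + 1) → ℝ) i * w j i =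
        w j 0 * T.den (x j) := fun j => pair_cons (w j) (h0 j) T.c T.δ
    obtain ⟨j₀, -⟩ := hdead (fun _ => 1) (fun h => one_ne_zero (congrFun h 0))
    have hne : (Fin.cons T.δ T.c : Fin (d + 1) → ℝ) ≠ 0 := by
      intro hz
      have h1 := hpair j₀
      rw [hz] at h1
      simp only [Pi.zero_apply, zero_mul, Finset.sum_const_zero] at h1
      exact mul_ne_zero (h0 j₀) (hden' j₀) h1.symm
    obtain ⟨j, hj⟩ := hdead _ hne
    rw [hpair j] at hj
    exact absurd (hs j) (not_lt.mpr hj.le)
  · -- separate the image of the point `i` from the hull of the others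
    have hfin : ((fun k => T.map (x k)) '' {k | k ≠ i}).Finite := Set.toFinite _
    have hclosed : IsClosed (convexHull ℝ ((fun k => T.map (x k)) '' {k | k ≠ i})) :=
      hfin.isClosed_convexHull ℝ
    obtain ⟨f, u, hfi, hfk⟩ := geometric_hahn_banach_point_closed
      (convex_convexHull ℝ ((fun k => T.map (x k)) '' {k | k ≠ i})) hclosed (hvert i)
    let a : Fin d → ℝ := fun k => f (Pi.single k 1)
    have hfa : ∀ y : Fin d → ℝ, f y = ∑ k, a k * y k := by
      intro y
      conv_lhs => rw [pi_eq_sum_univ' y]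
      rw [map_sum]
      refine Finset.sum_congr rfl fun k _ => ?_
      rw [map_smul, smul_eq_mul, mul_comm]
    have hpair : ∀ j, ∑ l, pull T a u l * w j l =
        (w j 0 * T.den (x j)) * (f (T.map (x j)) - u) := by
      intro j
      rw [hfa]
      exact pull_pair T a u (w j) (h0 j) (hden' j)
    have hpos : ∀ j, 0 < sg (Function.update s i (!s i) j) * ∑ l, pull T a u l * w j l := by
      intro j
      rw [hpair j, ← mul_assoc]
      by_cases hji : j = i
      · subst hji
        rw [Function.update_self, sg_not]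
        have h1 : f (T.map (x j)) - u < 0 := sub_neg.mpr hfi
        have h2 := mul_pos_of_neg_of_neg (neg_lt_zero.mpr (hs j)) h1
        rwa [← neg_mul] at h2
      · rw [Function.update_of_ne hji]
        have h1 : 0 < f (T.map (x j)) - u :=
          sub_pos.mpr (hfk _ (subset_convexHull ℝ _ ⟨j, hji, rfl⟩))
        exact mul_pos (hs j) h1
    have hne : pull T a u ≠ 0 := by
      intro hz
      have h1 := hpos i
      rw [hz] at h1
      simp at h1
    obtain ⟨j, hj⟩ := hdead _ hne
    exact absurd (hpos j) (not_lt.mpr hj.le)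

end Pool.Agent.H67.Nu
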