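import Pool.Agent.H67.Nu.Machine2

/-!
Two-sided families: a prefix of eleven columns, a tail, and the mirrored prefix.
-/

set_option autoImplicit false

namespace Pool.Agent.H67.Nu

open Finset

/-- The glue lemma, as a hypothesis. -/
def GlueLemma : Prop :=
  ∀ (x z : ℕ → ℕ → ℝ) (n1 n2 r : ℕ), ∃ x' : ℕ → ℕ → ℝ, ∀ (s : ℕ → Bool) (a a' : ℕ)
    (ε ε' : Bool), St x n1 s a ε → St z n2 (fun j => s (n1 + j)) a' ε' →
      (r + 2 ≤ a + a' ∨ (a + a' = r + 1 ∧ ε ≠ ε')) → Dead x' (n1 + n2) r s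

theorem exists_seqG (hB : ColumnLemma) {N0 : ℕ} (e : ℕ → ℕ → Bool)
    {p0 : (ℕ → Bool) → ℕ × Bool} {X : ℕ → ℕ → ℝ}
    (h0 : ∀ s, St X N0 s (p0 s).1 (p0 s).2) (hle : ∀ s, (p0 s).1 ≤ N0) :
    ∀ k, ∃ x : ℕ → ℕ → ℝ, ∀ s, St x (N0 + k) s (stG N0 e p0 s k).1 (stG N0 e p0 s k).2 ∧
      (stG N0 e p0 s k).1 ≤ N0 + k
  | 0 => ⟨X, fun s => ⟨h0 s, hle s⟩⟩
  | k + 1 => by
    obtain ⟨x, hx⟩ := exists_seqG hB e h0 hle k
    obtain ⟨y, hy⟩ := hB x (N0 + k) (N0 + k) (e (N0 + k))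
    refine ⟨fun j => if j < N0 + k then x j else y, fun s => ⟨?_, ?_⟩⟩
    · exact hy _ (fun j hj => by simp [hj]) (by simp) s (stG N0 e p0 s k).1
        (stG N0 e p0 s k).2 (hx s).2 (hx s).1
    · have h1 := step_le (e (N0 + k)) (stG N0 e p0 s k) (s (N0 + k))
      have h2 := (hx s).2
      simp only [stG]
      omega

theorem sg_sq (b : Bool) : sg b * sg b = 1 := by cases b <;> simp [sg]

theorem sg_xnor (a b : Bool) : sg (a == b) = sg a * sg b := by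
  cases a <;> cases b <;> simp [sg]

/-- Changing signs of rows. -/
theorem St.gauge {z : ℕ → ℕ → ℝ} {n : ℕ} {s : ℕ → Bool} {a : ℕ} {ε : Bool}
    (h : St z n s a ε) (g : ℕ → Bool) :
    St (fun j i => sg (g i) * z j i) n s a (ε == g (a - 1)) := by
  intro c hc hw
  have key := h (fun i => sg (g i) * c i) ?_ ?_
  · rw [sg_xnor]
    nlinarith [key]
  · obtain ⟨i, hi, hci⟩ := hc
    refine ⟨i, hi, mul_ne_zero ?_ hci⟩
    cases g i <;> simp [sg]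
  · intro j hj
    have := hw j hj
    have e : ∑ i ∈ range a, sg (g i) * c i * z j i = ∑ i ∈ range a, c i * (sg (g i) * z j i) :=
      Finset.sum_congr rfl fun i _ => by ring
    rw [e]
    exact this

/-- The right half: what the table of the prefix gives. -/
theorem right_end {q0 : (ℕ → Bool) → ℕ × Bool}
    (hP : ∀ s, 6 ≤ (q0 s).1 ∨ ∃ i < 11, 12 ≤ (q0 s).1 + (q0 (flip s i)).1 ∨
      ((q0 s).1 + (q0 (flip s i)).1 = 11 ∧ (q0 (flip s i)).2 = !(q0 s).2)) (s : ℕ → Bool) :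
    ∃ w, (w = s ∨ ∃ i < 11, w = flip s i) ∧ (12 ≤ (q0 s).1 + (q0 w).1 ∨
      ((q0 s).1 ≤ 5 ∧ (q0 s).1 + (q0 w).1 = 11 ∧ (q0 w).2 = !(q0 s).2)) := by
  by_cases h6 : 6 ≤ (q0 s).1
  · exact ⟨s, Or.inl rfl, Or.inl (by omega)⟩
  · rcases hP s with h | ⟨i, hi, h | ⟨h1, h2⟩⟩
    · exact absurd h h6
    · exact ⟨_, Or.inr ⟨i, hi, rfl⟩, Or.inl h⟩
    · exact ⟨_, Or.inr ⟨i, hi, rfl⟩, Or.inr ⟨by omega, h1, h2⟩⟩

theorem flip_shift (s : ℕ → Bool) (n i : ℕ) :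
    (fun j => flip s (n + i) (n + j)) = flip (fun j => s (n + j)) i := by
  funext j
  by_cases h : j = i
  · subst h; simp [flip]
  · rw [flip_ne h, flip_ne (by omega : n + j ≠ n + i)]

theorem flip_shift_lt (s : ℕ → Bool) (n i : ℕ) (h : i < n) :
    (fun j => flip s i (n + j)) = fun j => s (n + j) := by
  funext j
  rw [flip_ne (by omega : n + j ≠ i)]

variable {q0 : (ℕ → Bool) → ℕ × Bool} {Y : ℕ → ℕ → ℝ}

theorem exists_two_sided (hB : ColumnLemma) (hG : GlueLemma)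
    (h0 : ∀ s, St Y 11 s (q0 s).1 (q0 s).2) (hle : ∀ s, (q0 s).1 ≤ 11)
    (hp0 : ∀ s i, 11 ≤ i → q0 (flip s i) = q0 s) (hpos : ∀ s, 1 ≤ (q0 s).1)
    (hP : ∀ s, 6 ≤ (q0 s).1 ∨ ∃ i < 11, 12 ≤ (q0 s).1 + (q0 (flip s i)).1 ∨
      ((q0 s).1 + (q0 (flip s i)).1 = 11 ∧ (q0 (flip s i)).2 = !(q0 s).2))
    (t k : ℕ) (hk : k + 1 = (5 * t + 1) / 2) (ht : 1 ≤ t) :
    ∃ x : ℕ → ℕ → ℝ, ∀ s : ℕ → Bool, ∃ w, (w = s ∨ ∃ i < 23 + k, w = flip s i) ∧
      Dead x (23 + k) (10 + t) w := by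
  obtain ⟨x, hx⟩ := exists_seqG hB col2 h0 hle (k + 1)
  set n1 : ℕ := 11 + (k + 1) with hn1
  set r : ℕ := 10 + t with hr
  set g : ℕ → Bool := fun i => col2 (n1 - 1) i with hg
  obtain ⟨x', hx'⟩ := hG x (fun j i => sg (g (r - 1 - i)) * Y j i) n1 11 r
  refine ⟨x', fun s => ?_⟩
  have hn : n1 + 11 = 23 + k := by omega
  obtain ⟨w, hw, hsum⟩ := left_end hp0 hpos hP s t k hk ht
  obtain ⟨w', hw', hR⟩ := right_end hP (fun j => s (n1 + j))
  -- notation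
  have hpos' := stG_pos (N0 := 11) (e := col2) (p0 := q0) s k
  have hposw := stG_pos (N0 := 11) (e := col2) (p0 := q0) w k
  have hreg := stG_regular (N0 := 11) (e := col2) (p0 := q0) s k
  have hregw := stG_regular (N0 := 11) (e := col2) (p0 := q0) w k
  have hSts := (hx s).1
  have hStw := (hx w).1
  have en : n1 - 1 = 11 + k := by omega
  have hws : w (11 + k) = s (11 + k) := by
    rcases hw with rfl | ⟨i, hi, rfl⟩
    · rfl
    · exact flip_ne (by omega)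
  have hwr : (fun j => w (n1 + j)) = fun j => s (n1 + j) := by
    rcases hw with rfl | ⟨i, hi, rfl⟩
    · rfl
    · exact flip_shift_lt s n1 i (by omega)
  rw [hws] at hregw
  -- the right flip as a flip of the whole vector
  obtain ⟨v, hv, hvl, hvr⟩ : ∃ v, (v = s ∨ ∃ i < 23 + k, v = flip s i) ∧
      stG 11 col2 q0 v (k + 1) = stG 11 col2 q0 s (k + 1) ∧ (fun j => v (n1 + j)) = w' := by
    rcases hw' with rfl | ⟨i, hi, rfl⟩
    · exact ⟨s, Or.inl rfl, rfl, rfl⟩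
    · exact ⟨flip s (n1 + i), Or.inr ⟨n1 + i, by omega, rfl⟩,
        stG_congr hp0 s (n1 + i) (by omega) (k + 1) (by omega), flip_shift s n1 i⟩
  have hStv := (hx v).1
  rw [hvl] at hStv
  have hzs := (h0 (fun j => s (n1 + j))).gauge fun i => g (r - 1 - i)
  have hzv := (h0 w').gauge fun i => g (r - 1 - i)
  have hqs := hpos (fun j => s (n1 + j))
  have hqw := hpos w'
  generalize stG 11 col2 q0 s (k + 1) = p at *
  generalize stG 11 col2 q0 w (k + 1) = pw at *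
  generalize hQ : q0 (fun j => s (n1 + j)) = q at *
  generalize q0 w' = qw at *
  obtain ⟨a, ε⟩ := p
  obtain ⟨b, δ⟩ := pw
  obtain ⟨a', ε'⟩ := q
  obtain ⟨b', δ'⟩ := qw
  simp only at *
  have dead_w : (r + 2 ≤ b + a' ∨ (b + a' = r + 1 ∧ δ ≠ (ε' == g (r - 1 - (a' - 1))))) →
      ∃ w, (w = s ∨ ∃ i < 23 + k, w = flip s i) ∧ Dead x' (23 + k) r w := by
    intro h
    refine ⟨w, ?_, ?_⟩
    · rcases hw with rfl | ⟨i, hi, rfl⟩
      · exact Or.inl rfl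
      · exact Or.inr ⟨i, by omega, rfl⟩
    · rw [← hn]
      exact hx' w b a' δ _ hStw (by rw [hwr]; exact hzs) h
  have dead_v : (r + 2 ≤ a + b' ∨ (a + b' = r + 1 ∧ ε ≠ (δ' == g (r - 1 - (b' - 1))))) →
      ∃ w, (w = s ∨ ∃ i < 23 + k, w = flip s i) ∧ Dead x' (23 + k) r w := by
    intro h
    refine ⟨v, hv, ?_⟩
    rw [← hn]
    exact hx' v a b' ε _ hStv (by rw [hvr]; exact hzv) h
  by_cases c1 : r + 2 ≤ b + a'
  · exact dead_w (Or.inl c1)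
  by_cases c2 : r + 2 ≤ a + b'
  · exact dead_v (Or.inl c2)
  have hab : a + b = 2 * t + 11 ∧ a' + b' = 11 ∧ b + a' = r + 1 ∧ a + b' = r + 1 ∧
      δ' = !ε' := by
    rcases hR with h | ⟨-, h, h2⟩
    · omega
    · exact ⟨by omega, h, by omega, by omega, h2⟩
  obtain ⟨-, -, e3, e4, e5⟩ := hab
  have i1 : r - 1 - (a' - 1) = b - 1 := by omega
  have i2 : r - 1 - (b' - 1) = a - 1 := by omega
  by_cases hxe : s (11 + k) = ε'
  · refine dead_v (Or.inr ⟨e4, ?_⟩)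
    rw [i2, hreg, e5, hg, hxe]
    simp only [en]
    cases ε' <;> cases col2 (11 + k) (a - 1) <;> decide
  · refine dead_w (Or.inr ⟨e3, ?_⟩)
    rw [i1, hregw, hg]
    simp only [en]
    revert hxe
    cases s (11 + k) <;> cases ε' <;> cases col2 (11 + k) (b - 1) <;> decide

/-- The case without tail. -/
theorem exists_two_sided_zero (hG : GlueLemma)
    (h0 : ∀ s, St Y 11 s (q0 s).1 (q0 s).2)
    (hp0 : ∀ s i, 11 ≤ i → q0 (flip s i) = q0 s) (hpos : ∀ s, 1 ≤ (q0 s).1)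
    (hP : ∀ s, 6 ≤ (q0 s).1 ∨ ∃ i < 11, 12 ≤ (q0 s).1 + (q0 (flip s i)).1 ∨
      ((q0 s).1 + (q0 (flip s i)).1 = 11 ∧ (q0 (flip s i)).2 = !(q0 s).2)) :
    ∃ x : ℕ → ℕ → ℝ, ∀ s : ℕ → Bool, ∃ w, (w = s ∨ ∃ i < 22, w = flip s i) ∧
      Dead x 22 10 w := by
  set g : ℕ → Bool := fun i => decide (i < 5) with hg
  obtain ⟨x', hx'⟩ := hG Y (fun j i => sg (g (10 - 1 - i)) * Y j i) 11 11 10
  refine ⟨x', fun s => ?_⟩
  obtain ⟨w, hw, hL⟩ := right_end hP s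
  obtain ⟨w', hw', hR⟩ := right_end hP (fun j => s (11 + j))
  have hSts := h0 s
  have hStw := h0 w
  have hwr : (fun j => w (11 + j)) = fun j => s (11 + j) := by
    rcases hw with rfl | ⟨i, hi, rfl⟩
    · rfl
    · exact flip_shift_lt s 11 i (by omega)
  obtain ⟨v, hv, hvl, hvr⟩ : ∃ v, (v = s ∨ ∃ i < 22, v = flip s i) ∧
      q0 v = q0 s ∧ (fun j => v (11 + j)) = w' := by
    rcases hw' with rfl | ⟨i, hi, rfl⟩
    · exact ⟨s, Or.inl rfl, rfl, rfl⟩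
    · exact ⟨flip s (11 + i), Or.inr ⟨11 + i, by omega, rfl⟩, hp0 s _ (by omega),
        flip_shift s 11 i⟩
  have hStv := h0 v
  rw [hvl] at hStv
  have hzs := (h0 (fun j => s (11 + j))).gauge fun i => g (10 - 1 - i)
  have hzv := (h0 w').gauge fun i => g (10 - 1 - i)
  have hqs := hpos (fun j => s (11 + j))
  have hqw := hpos w'
  have hqs' := hpos s
  have hqw' := hpos w
  generalize q0 s = p at *
  generalize q0 w = pw at *
  generalize hQ : q0 (fun j => s (11 + j)) = q at *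
  generalize q0 w' = qw at *
  obtain ⟨a, ε⟩ := p
  obtain ⟨b, δ⟩ := pw
  obtain ⟨a', ε'⟩ := q
  obtain ⟨b', δ'⟩ := qw
  simp only at *
  have dead_w : (10 + 2 ≤ b + a' ∨ (b + a' = 10 + 1 ∧ δ ≠ (ε' == g (10 - 1 - (a' - 1))))) →
      ∃ w, (w = s ∨ ∃ i < 22, w = flip s i) ∧ Dead x' 22 10 w := by
    intro h
    refine ⟨w, ?_, ?_⟩
    · rcases hw with rfl | ⟨i, hi, rfl⟩
      · exact Or.inl rfl
      · exact Or.inr ⟨i, by omega, rfl⟩
    · exact hx' w b a' δ _ hStw (by rw [hwr]; exact hzs) h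
  have dead_v : (10 + 2 ≤ a + b' ∨ (a + b' = 10 + 1 ∧ ε ≠ (δ' == g (10 - 1 - (b' - 1))))) →
      ∃ w, (w = s ∨ ∃ i < 22, w = flip s i) ∧ Dead x' 22 10 w := by
    intro h
    exact ⟨v, hv, hx' v a b' ε _ hStv (by rw [hvr]; exact hzv) h⟩
  by_cases c1 : 10 + 2 ≤ b + a'
  · exact dead_w (Or.inl c1)
  by_cases c2 : 10 + 2 ≤ a + b'
  · exact dead_v (Or.inl c2)
  have hab : a ≤ 5 ∧ a + b = 11 ∧ b + a' = 11 ∧ a + b' = 11 ∧ δ = (!ε) ∧ δ' = !ε' := by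
    rcases hR with h | ⟨h5, h, h2⟩ <;> rcases hL with h' | ⟨h5', h', h2'⟩
    · omega
    · omega
    · omega
    · exact ⟨h5', h', by omega, by omega, h2', h2⟩
  obtain ⟨h5, e1, e3, e4, e5, e6⟩ := hab
  have i1 : g (10 - 1 - (a' - 1)) = false := by
    simp only [hg, decide_eq_false_iff_not]; omega
  have i2 : g (10 - 1 - (b' - 1)) = true := by
    simp only [hg, decide_eq_true_iff]; omega
  by_cases hxe : ε = ε'
  · refine dead_v (Or.inr ⟨e4, ?_⟩)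
    rw [i2, e6, hxe]
    cases ε' <;> decide
  · refine dead_w (Or.inr ⟨e3, ?_⟩)
    rw [i1, e5]
    revert hxe
    cases ε <;> cases ε' <;> decide

end Pool.Agent.H67.Nu
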